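import Pool.Agent.Y524G.Ind

/-! Explicit data: all coprime classes. -/

namespace Pool.Agent.Y524G

open Pool.Agent.Y524F

theorem ext2 {G : Type*} [Group G] {f f' : Fg 2 →* G}
    (h0f : f (FreeGroup.of (0, false)) = f' (FreeGroup.of (0, false)))
    (h0t : f (FreeGroup.of (0, true)) = f' (FreeGroup.of (0, true)))
    (h1f : f (FreeGroup.of (1, false)) = f' (FreeGroup.of (1, false)))
    (h1t : f (FreeGroup.of (1, true)) = f' (FreeGroup.of (1, true))) : f = f' := by
  apply FreeGroup.ext_hom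
  rintro ⟨a, b⟩
  fin_cases a <;> cases b
  · exact h0f
  · exact h0t
  · exact h1f
  · exact h1t

/-- hom from four values -/
def h4 {G : Type*} [Group G] (a b c d : G) : Fg 2 →* G :=
  FreeGroup.lift fun x => if x = (0, false) then a else if x = (0, true) then b else
    if x = (1, false) then c else d

section
variable {G : Type*} [Group G] (a b c d : G)
theorem h4_0f : h4 a b c d (FreeGroup.of (0, false)) = a := by simp [h4]
theorem h4_0t : h4 a b c d (FreeGroup.of (0, true)) = b := by simp [h4]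
theorem h4_1f : h4 a b c d (FreeGroup.of (1, false)) = c := by simp [h4]
theorem h4_1t : h4 a b c d (FreeGroup.of (1, true)) = d := by simp [h4]
end

theorem bd_two : bd 2 = FreeGroup.of (0, false) * FreeGroup.of (0, true) *
    (FreeGroup.of (0, false))⁻¹ * (FreeGroup.of (0, true))⁻¹ *
    (FreeGroup.of (1, false) * FreeGroup.of (1, true) *
    (FreeGroup.of (1, false))⁻¹ * (FreeGroup.of (1, true))⁻¹) := by
  unfold bd
  simp only [List.ofFn_succ, List.ofFn_zero, List.prod_cons, List.prod_nil, mul_one]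
  rfl

/-- change of the datum by an automorphism of the surface group which extends over the
`β`-handlebody -/
theorem Datum.comp {f : Fg 2 →* FreeGroup (Fin 2)} {L : Fg 2 →* FreeGroup (Fin 1)}
    (D : Datum f L) (A B : Fg 2 →* Fg 2) (hAB : ∀ x, A (B x) = x) (hBA : ∀ x, B (A x) = x)
    (hbd : A (bd 2) = bd 2) (hA : ∀ i, std 2 (A (FreeGroup.of (i, true))) = 1)
    (hB : ∀ i, std 2 (B (FreeGroup.of (i, true))) = 1) : Datum (f.comp A) (L.comp A) := by
  have hs : Function.Surjective A := fun x => ⟨B x, hAB x⟩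
  refine ⟨D.surj.comp hs, ?_, D.surjL.comp hs, ?_⟩
  · rw [MonoidHom.comp_apply, hbd, D.closed]
  · have h1 : ((std 2).comp A).ker = (std 2).ker := by
      apply le_antisymm
      · have h2 : (std 2).ker ≤ ((std 2).comp B).ker := std_ker_le _ hB
        intro x hx
        have h3 := h2 hx
        rw [MonoidHom.mem_ker, MonoidHom.comp_apply, hBA] at h3
        exact h3
      · exact std_ker_le _ hA
    rw [← MonoidHom.comap_ker, D.ker, ← Subgroup.comap_sup_eq _ _ _ hs, MonoidHom.comap_ker,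
      MonoidHom.comap_ker, h1]

/-- the generators of the genus two surface group -/
abbrev a0 : Fg 2 := FreeGroup.of (0, false)
/-- `b_0` -/
abbrev b0 : Fg 2 := FreeGroup.of (0, true)
/-- `a_1` -/
abbrev a1 : Fg 2 := FreeGroup.of (1, false)
/-- `b_1` -/
abbrev b1 : Fg 2 := FreeGroup.of (1, true)

/-- first automorphism -/
def A1 : Fg 2 →* Fg 2 := h4 (a0 * a1) (a1⁻¹ * b0 * a1) (a1⁻¹ * b0 * a1 * b0⁻¹ * a1)
  (b1 * a1⁻¹ * b0⁻¹ * a1)

/-- its inverse -/
def B1 : Fg 2 →* Fg 2 := h4 (a0 * b0⁻¹ * a1⁻¹ * b0) (b0⁻¹ * a1 * b0 * a1⁻¹ * b0)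
  (b0⁻¹ * a1 * b0) (b1 * b0)

/-- second automorphism -/
def A2 : Fg 2 →* Fg 2 := h4 a0 (b0 * a0⁻¹ * b0⁻¹ * a1 * b1 * a1⁻¹ * b0 * a0)
  (b0 * a0⁻¹ * b0⁻¹ * a1) b1

/-- its inverse -/
def B2 : Fg 2 →* Fg 2 := h4 a0 (a1 * b1⁻¹ * a1⁻¹ * b0)
  (a1 * b1⁻¹ * a1⁻¹ * b0 * a0 * b0⁻¹ * a1 * b1) b1

/-- third automorphism (change of framing) -/
def A3 : Fg 2 →* Fg 2 := h4 (a0 * b0) b0 a1 b1

/-- its inverse -/
def B3 : Fg 2 →* Fg 2 := h4 (a0 * b0⁻¹) b0 a1 b1

theorem A1B1 (x : Fg 2) : A1 (B1 x) = x := by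
  have : A1.comp B1 = MonoidHom.id _ := by
    apply ext2 <;> rw [MonoidHom.comp_apply, MonoidHom.id_apply]
    · simp only [A1, B1, h4_0f, h4_0t, h4_1f, h4_1t, map_mul, map_inv]; group
    · simp only [A1, B1, h4_0f, h4_0t, h4_1f, h4_1t, map_mul, map_inv]; group
    · simp only [A1, B1, h4_0f, h4_0t, h4_1f, h4_1t, map_mul, map_inv]; group
    · simp only [A1, B1, h4_0f, h4_0t, h4_1f, h4_1t, map_mul, map_inv]; group
  exact DFunLike.congr_fun this x

theorem B1A1 (x : Fg 2) : B1 (A1 x) = x := by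
  have : B1.comp A1 = MonoidHom.id _ := by
    apply ext2 <;> rw [MonoidHom.comp_apply, MonoidHom.id_apply]
    · simp only [A1, B1, h4_0f, h4_0t, h4_1f, h4_1t, map_mul, map_inv]; group
    · simp only [A1, B1, h4_0f, h4_0t, h4_1f, h4_1t, map_mul, map_inv]; group
    · simp only [A1, B1, h4_0f, h4_0t, h4_1f, h4_1t, map_mul, map_inv]; group
    · simp only [A1, B1, h4_0f, h4_0t, h4_1f, h4_1t, map_mul, map_inv]; group
  exact DFunLike.congr_fun this x

theorem A2B2 (x : Fg 2) : A2 (B2 x) = x := by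
  have : A2.comp B2 = MonoidHom.id _ := by
    apply ext2 <;> rw [MonoidHom.comp_apply, MonoidHom.id_apply]
    · simp only [A2, B2, h4_0f, h4_0t, h4_1f, h4_1t, map_mul, map_inv]
    · simp only [A2, B2, h4_0f, h4_0t, h4_1f, h4_1t, map_mul, map_inv]; group
    · simp only [A2, B2, h4_0f, h4_0t, h4_1f, h4_1t, map_mul, map_inv]; group
    · simp only [A2, B2, h4_0f, h4_0t, h4_1f, h4_1t, map_mul, map_inv]
  exact DFunLike.congr_fun this x

theorem B2A2 (x : Fg 2) : B2 (A2 x) = x := by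
  have : B2.comp A2 = MonoidHom.id _ := by
    apply ext2 <;> rw [MonoidHom.comp_apply, MonoidHom.id_apply]
    · simp only [A2, B2, h4_0f, h4_0t, h4_1f, h4_1t, map_mul, map_inv]
    · simp only [A2, B2, h4_0f, h4_0t, h4_1f, h4_1t, map_mul, map_inv]; group
    · simp only [A2, B2, h4_0f, h4_0t, h4_1f, h4_1t, map_mul, map_inv]; group
    · simp only [A2, B2, h4_0f, h4_0t, h4_1f, h4_1t, map_mul, map_inv]
  exact DFunLike.congr_fun this x

theorem A3B3 (x : Fg 2) : A3 (B3 x) = x := by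
  have : A3.comp B3 = MonoidHom.id _ := by
    apply ext2 <;> rw [MonoidHom.comp_apply, MonoidHom.id_apply]
    · simp only [A3, B3, h4_0f, h4_0t, h4_1f, h4_1t, map_mul, map_inv]; group
    · simp only [A3, B3, h4_0f, h4_0t, h4_1f, h4_1t, map_mul, map_inv]
    · simp only [A3, B3, h4_0f, h4_0t, h4_1f, h4_1t, map_mul, map_inv]
    · simp only [A3, B3, h4_0f, h4_0t, h4_1f, h4_1t, map_mul, map_inv]
  exact DFunLike.congr_fun this x

theorem B3A3 (x : Fg 2) : B3 (A3 x) = x := by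
  have : B3.comp A3 = MonoidHom.id _ := by
    apply ext2 <;> rw [MonoidHom.comp_apply, MonoidHom.id_apply]
    · simp only [A3, B3, h4_0f, h4_0t, h4_1f, h4_1t, map_mul, map_inv]; group
    · simp only [A3, B3, h4_0f, h4_0t, h4_1f, h4_1t, map_mul, map_inv]
    · simp only [A3, B3, h4_0f, h4_0t, h4_1f, h4_1t, map_mul, map_inv]
    · simp only [A3, B3, h4_0f, h4_0t, h4_1f, h4_1t, map_mul, map_inv]
  exact DFunLike.congr_fun this x

theorem A1bd : A1 (bd 2) = bd 2 := by
  rw [bd_two]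
  simp only [A1, h4_0f, h4_0t, h4_1f, h4_1t, map_mul, map_inv]
  group

theorem A2bd : A2 (bd 2) = bd 2 := by
  rw [bd_two]
  simp only [A2, h4_0f, h4_0t, h4_1f, h4_1t, map_mul, map_inv]
  group

theorem A3bd : A3 (bd 2) = bd 2 := by
  rw [bd_two]
  simp only [A3, h4_0f, h4_0t, h4_1f, h4_1t, map_mul, map_inv]
  group

theorem B1bd : B1 (bd 2) = bd 2 := by
  conv_lhs => rw [← A1bd]
  exact B1A1 _

theorem B2bd : B2 (bd 2) = bd 2 := by
  conv_lhs => rw [← A2bd]
  exact B2A2 _

theorem B3bd : B3 (bd 2) = bd 2 := by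
  conv_lhs => rw [← A3bd]
  exact B3A3 _

/-- A homomorphism killing the `b_i` kills these words. -/
theorem word_std {G : Type*} [Group G] (h : Fg 2 →* G)
    (hb : ∀ i, h (FreeGroup.of (i, true)) = 1) (i : Fin 2) :
    h (A1 (FreeGroup.of (i, true))) = 1 ∧ h (B1 (FreeGroup.of (i, true))) = 1 ∧
    h (A2 (FreeGroup.of (i, true))) = 1 ∧ h (B2 (FreeGroup.of (i, true))) = 1 ∧
    h (A3 (FreeGroup.of (i, true))) = 1 ∧ h (B3 (FreeGroup.of (i, true))) = 1 := by
  have h0 := hb 0
  have h1 := hb 1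
  fin_cases i
  · refine ⟨?_, ?_, ?_, ?_, ?_, ?_⟩
    · simp only [A1, h4_0t, map_mul, map_inv, Fin.zero_eta]; rw [h0]; group
    · simp only [B1, h4_0t, map_mul, map_inv, Fin.zero_eta]; rw [h0]; group
    · simp only [A2, h4_0t, map_mul, map_inv, Fin.zero_eta]; rw [h0, h1]; group
    · simp only [B2, h4_0t, map_mul, map_inv, Fin.zero_eta]; rw [h0, h1]; group
    · simp only [A3, h4_0t, Fin.zero_eta]; rw [h0]
    · simp only [B3, h4_0t, Fin.zero_eta]; rw [h0]
  · refine ⟨?_, ?_, ?_, ?_, ?_, ?_⟩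
    · simp only [A1, h4_1t, map_mul, map_inv, Fin.mk_one]; rw [h0, h1]; group
    · simp only [B1, h4_1t, map_mul, map_inv, Fin.mk_one]; rw [h0, h1]; group
    · simp only [A2, h4_1t, Fin.mk_one]; rw [h1]
    · simp only [B2, h4_1t, Fin.mk_one]; rw [h1]
    · simp only [A3, h4_1t, Fin.mk_one]; rw [h1]
    · simp only [B3, h4_1t, Fin.mk_one]; rw [h1]

theorem std_b (i : Fin 2) : std 2 (FreeGroup.of (i, true)) = 1 := std_t 2 i

theorem Datum.b {f : Fg 2 →* FreeGroup (Fin 2)} {L : Fg 2 →* FreeGroup (Fin 1)}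
    (D : Datum f L) (i : Fin 2) : L (FreeGroup.of (i, true)) = 1 := by
  have : FreeGroup.of (i, true) ∈ L.ker := by
    rw [D.ker]
    exact Subgroup.mem_sup_right (std_t 2 i)
  exact this

/-- the classes realized -/
def Real (n m : ℤ) : Prop := ∃ (f : Fg 2 →* FreeGroup (Fin 2)) (L : Fg 2 →* FreeGroup (Fin 1)),
  Datum f L ∧ L a0 = FreeGroup.of 0 ^ n ∧ L a1 = FreeGroup.of 0 ^ m

theorem Real.step1 {n m : ℤ} (h : Real n m) : Real (n + m) m := by
  obtain ⟨f, L, D, hn, hm⟩ := h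
  refine ⟨f.comp A1, L.comp A1, D.comp A1 B1 A1B1 B1A1 A1bd (fun i => (word_std _ std_b i).1)
    (fun i => (word_std _ std_b i).2.1), ?_, ?_⟩
  · rw [MonoidHom.comp_apply, A1, h4_0f, map_mul, hn, hm, zpow_add]
  · have h0 := D.b 0
    rw [MonoidHom.comp_apply, A1, h4_1f]
    simp only [map_mul, map_inv]
    rw [hm, h0]
    group

theorem Real.step1' {n m : ℤ} (h : Real n m) : Real (n - m) m := by
  obtain ⟨f, L, D, hn, hm⟩ := h
  refine ⟨f.comp B1, L.comp B1, D.comp B1 A1 B1A1 A1B1 B1bd (fun i => (word_std _ std_b i).2.1)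
    (fun i => (word_std _ std_b i).1), ?_, ?_⟩
  · have h0 := D.b 0
    rw [MonoidHom.comp_apply, B1, h4_0f]
    simp only [map_mul, map_inv]
    rw [hn, hm, h0]
    group
  · have h0 := D.b 0
    rw [MonoidHom.comp_apply, B1, h4_1f]
    simp only [map_mul, map_inv]
    rw [hm, h0]
    group

theorem Real.step2 {n m : ℤ} (h : Real n m) : Real n (m - n) := by
  obtain ⟨f, L, D, hn, hm⟩ := h
  refine ⟨f.comp A2, L.comp A2, D.comp A2 B2 A2B2 B2A2 A2bd (fun i => (word_std _ std_b i).2.2.1)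
    (fun i => (word_std _ std_b i).2.2.2.1), ?_, ?_⟩
  · rw [MonoidHom.comp_apply, A2, h4_0f, hn]
  · have h0 := D.b 0
    rw [MonoidHom.comp_apply, A2, h4_1f]
    simp only [map_mul, map_inv]
    rw [hn, hm, h0]
    group

theorem Real.step2' {n m : ℤ} (h : Real n m) : Real n (m + n) := by
  obtain ⟨f, L, D, hn, hm⟩ := h
  refine ⟨f.comp B2, L.comp B2, D.comp B2 A2 B2A2 A2B2 B2bd
    (fun i => (word_std _ std_b i).2.2.2.1) (fun i => (word_std _ std_b i).2.2.1), ?_, ?_⟩
  · rw [MonoidHom.comp_apply, B2, h4_0f, hn]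
  · have h0 := D.b 0
    have h1 := D.b 1
    rw [MonoidHom.comp_apply, B2, h4_1f]
    simp only [map_mul, map_inv]
    rw [hn, hm, h0, h1]
    group

theorem Real.base : Real 1 0 := by
  refine ⟨h4 (FreeGroup.of 0) 1 1 (FreeGroup.of 1), h4 (FreeGroup.of 0) 1 1 1,
    ⟨?_, ?_, ?_, ?_⟩, ?_, ?_⟩
  · apply hom_surj_of_gen
    intro a
    fin_cases a
    · exact ⟨_, h4_0f _ _ _ _⟩
    · exact ⟨_, h4_1t _ _ _ _⟩
  · rw [bd_two]
    simp only [h4_0f, h4_0t, h4_1f, h4_1t, map_mul, map_inv]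
    group
  · apply hom_surj_of_gen
    intro a
    exact ⟨a0, by rw [h4_0f, Subsingleton.elim a 0]⟩
  · apply le_antisymm
    · set M : Subgroup (Fg 2) := (h4 (FreeGroup.of 0) 1 1 (FreeGroup.of 1) :
        Fg 2 →* FreeGroup (Fin 2)).ker ⊔ (std 2).ker with hM
      let s : FreeGroup (Fin 1) →* (Fg 2 ⧸ M) := FreeGroup.lift fun _ => QuotientGroup.mk' M a0
      have key : s.comp (h4 (FreeGroup.of 0) 1 1 1) = QuotientGroup.mk' M := by
        apply ext2
        · rw [MonoidHom.comp_apply, h4_0f]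
          simp [s]
        · rw [MonoidHom.comp_apply, h4_0t, map_one]
          symm
          rw [← MonoidHom.mem_ker, QuotientGroup.ker_mk']
          exact Subgroup.mem_sup_right (std_t 2 0)
        · rw [MonoidHom.comp_apply, h4_1f, map_one]
          symm
          rw [← MonoidHom.mem_ker, QuotientGroup.ker_mk']
          exact Subgroup.mem_sup_left (h4_1f _ _ _ _)
        · rw [MonoidHom.comp_apply, h4_1t, map_one]
          symm
          rw [← MonoidHom.mem_ker, QuotientGroup.ker_mk']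
          exact Subgroup.mem_sup_right (std_t 2 1)
      intro x hx
      rw [MonoidHom.mem_ker] at hx
      have : QuotientGroup.mk' M x = 1 := by
        rw [← key, MonoidHom.comp_apply, hx, map_one]
      rwa [← MonoidHom.mem_ker, QuotientGroup.ker_mk'] at this
    · rw [sup_le_iff]
      constructor
      · let r : FreeGroup (Fin 2) →* FreeGroup (Fin 1) :=
          FreeGroup.lift fun x => if x = 0 then FreeGroup.of 0 else 1
        have r0 : r (FreeGroup.of 0) = FreeGroup.of 0 := by simp [r]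
        have r1 : r (FreeGroup.of 1) = 1 := by simp [r]
        have key : r.comp (h4 (FreeGroup.of 0) 1 1 (FreeGroup.of 1)) =
            h4 (FreeGroup.of 0) 1 1 1 := by
          apply ext2
          · rw [MonoidHom.comp_apply, h4_0f, h4_0f, r0]
          · rw [MonoidHom.comp_apply, h4_0t, h4_0t, map_one]
          · rw [MonoidHom.comp_apply, h4_1f, h4_1f, map_one]
          · rw [MonoidHom.comp_apply, h4_1t, h4_1t, r1]
        intro x hx
        rw [MonoidHom.mem_ker] at hx ⊢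
        rw [← key, MonoidHom.comp_apply, hx, map_one]
      · apply std_ker_le
        intro i
        fin_cases i
        · exact h4_0t _ _ _ _
        · exact h4_1t _ _ _ _
  · rw [h4_0f, zpow_one]
  · rw [h4_1f, zpow_zero]

theorem real_five_two : Real 5 2 :=
  (Real.base.step2'.step2'.step1.step1 : Real (1 + (0 + 1 + 1) + (0 + 1 + 1)) (0 + 1 + 1))

theorem real_five_one : Real 5 1 :=
  (Real.base.step2'.step1.step1.step1.step1 :
    Real (1 + (0 + 1) + (0 + 1) + (0 + 1) + (0 + 1)) (0 + 1))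

end Pool.Agent.Y524G
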