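import Pool.Agent.Y524F.Defs

/-! Connected sums of group trisections. -/

namespace Pool.Agent.Y524G

/-- Connected sum of two triples of handlebody maps: the `i`-th map of the sum is the `i`-th map
of the first triple on the first `g` handles and the `i`-th map of the second triple on the last
`h` handles. -/
def sumMaps {g h : ℕ} (φ : Fin 3 → (FreeGroup (Fin g × Bool) →* FreeGroup (Fin g)))
    (ψ : Fin 3 → (FreeGroup (Fin h × Bool) →* FreeGroup (Fin h))) (i : Fin 3) :
    FreeGroup (Fin (g + h) × Bool) →* FreeGroup (Fin (g + h)) :=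
  FreeGroup.lift fun x => Fin.addCases
    (fun j => FreeGroup.map (Fin.castAdd h) (φ i (FreeGroup.of (j, x.2))))
    (fun j => FreeGroup.map (Fin.natAdd g) (ψ i (FreeGroup.of (j, x.2)))) x.1

end Pool.Agent.Y524G
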