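import Pool.Agent.Y524F.Defs

/-! The genus three trisections induced by framed tunnel number one knots in `S¹ × S²`. -/

namespace Pool.Agent.Y524G

/-- The standard handlebody map: it kills the `b_i` and sends `a_i` to the `i`-th generator. -/
def betaMap (g : ℕ) : FreeGroup (Fin g × Bool) →* FreeGroup (Fin g) :=
  FreeGroup.lift fun x => if x.2 then 1 else FreeGroup.of x.1

/-- `f` and the standard map are the two handlebodies of a genus two Heegaard splitting of
`S¹ × S²`, and `L` is the map of the fundamental group of the surface to that of `S¹ × S²`. The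
curve `a_0` is a knot `K` in the surface; it meets `b_0` once and misses `b_1`. -/
def Splitting (f : FreeGroup (Fin 2 × Bool) →* FreeGroup (Fin 2))
    (L : FreeGroup (Fin 2 × Bool) →* FreeGroup (Fin 1)) : Prop :=
  Function.Surjective f ∧ f (Pool.Agent.Y524F.bd 2) = 1 ∧ Function.Surjective L ∧
    L.ker = f.ker ⊔ (betaMap 2).ker

/-- Change of the framing of the knot: `a_0` is replaced by `a_0 b_0^j`. -/
def reframe (j : ℤ) : FreeGroup (Fin 2 × Bool) →* FreeGroup (Fin 2 × Bool) :=
  FreeGroup.lift fun x =>
    if x = (0, false) then FreeGroup.of (0, false) * FreeGroup.of (0, true) ^ j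
    else FreeGroup.of x

/-- First handlebody of the induced trisection: `f` on the old handles, `a_2` goes to `1` and
`b_2` to the new generator. -/
def alphaMap (f : FreeGroup (Fin 2 × Bool) →* FreeGroup (Fin 2)) :
    FreeGroup (Fin 3 × Bool) →* FreeGroup (Fin 3) :=
  FreeGroup.lift fun x => Fin.lastCases (if x.2 then FreeGroup.of 2 else 1)
    (fun j => FreeGroup.map Fin.castSucc (f (FreeGroup.of (j, x.2)))) x.1

/-- Third handlebody of the induced trisection: it kills `b_1`, `a_0 b_2⁻¹` and `b_0 a_2⁻¹`. -/
def gammaMap : FreeGroup (Fin 3 × Bool) →* FreeGroup (Fin 3) :=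
  FreeGroup.lift fun x => if x = (0, false) ∨ x = (2, true) then FreeGroup.of 0 else
    if x = (0, true) ∨ x = (2, false) then FreeGroup.of 2 else
    if x = (1, false) then FreeGroup.of 1 else 1

/-- The induced trisection. -/
def induced (f : FreeGroup (Fin 2 × Bool) →* FreeGroup (Fin 2)) :
    Fin 3 → (FreeGroup (Fin 3 × Bool) →* FreeGroup (Fin 3)) :=
  ![alphaMap f, betaMap 3, gammaMap]

end Pool.Agent.Y524G
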