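import Pool.Agent.Y524G.Sum

/-! The determinant invariant of weak isomorphism. -/

namespace Pool.Agent.Y524G

open Pool.Agent.Y524F

/-- exponent sums -/
def ab (c : Fin 2) : FreeGroup (Fin 2) →* Multiplicative ℤ :=
  FreeGroup.lift fun x => if x = c then Multiplicative.ofAdd 1 else 1

/-- exponent sums, additive values -/
def ex (c : Fin 2) (w : FreeGroup (Fin 2)) : ℤ := (ab c w).toAdd

theorem ex_mul (c : Fin 2) (x y : FreeGroup (Fin 2)) : ex c (x * y) = ex c x + ex c y := by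
  simp [ex]

theorem ex_inv (c : Fin 2) (x : FreeGroup (Fin 2)) : ex c x⁻¹ = - ex c x := by
  simp [ex]

theorem ex_one (c : Fin 2) : ex c 1 = 0 := by simp [ex]

theorem ex_of (c d : Fin 2) : ex c (FreeGroup.of d) = if d = c then 1 else 0 := by
  unfold ex ab
  rw [FreeGroup.lift_apply_of]
  split_ifs <;> simp

/-- values of a character -/
def vl {n : ℕ} {G : Type*} [Group G] (u : G →* Multiplicative (ZMod n)) (x : G) : ZMod n :=
  (u x).toAdd

theorem vl_mul {n : ℕ} {G : Type*} [Group G] (u : G →* Multiplicative (ZMod n)) (x y : G) :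
    vl u (x * y) = vl u x + vl u y := by simp [vl]

theorem vl_inv {n : ℕ} {G : Type*} [Group G] (u : G →* Multiplicative (ZMod n)) (x : G) :
    vl u x⁻¹ = - vl u x := by simp [vl]

theorem vl_one {n : ℕ} {G : Type*} [Group G] (u : G →* Multiplicative (ZMod n)) :
    vl u 1 = 0 := by simp [vl]

theorem vl_zpow {n : ℕ} {G : Type*} [Group G] (u : G →* Multiplicative (ZMod n)) (x : G) (k : ℤ) :
    vl u (x ^ k) = k * vl u x := by simp [vl]

theorem vl_eq {n : ℕ} (u : FreeGroup (Fin 2) →* Multiplicative (ZMod n)) (w : FreeGroup (Fin 2)) :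
    vl u w = (ex 0 w : ZMod n) * vl u (FreeGroup.of 0) + (ex 1 w : ZMod n) * vl u (FreeGroup.of 1) := by
  induction w using FreeGroup.induction_on with
  | C1 => simp [vl_one, ex_one]
  | of i =>
    rw [ex_of, ex_of]
    fin_cases i <;> simp
  | inv_of i h =>
    rw [vl_inv, ex_inv, ex_inv, h]
    push_cast
    ring
  | mul x y hx hy =>
    rw [vl_mul, ex_mul, ex_mul, hx, hy]
    push_cast
    ring

theorem ex_eq (f : FreeGroup (Fin 2) →* FreeGroup (Fin 2)) (c : Fin 2) (w : FreeGroup (Fin 2)) :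
    ex c (f w) = ex 0 w * ex c (f (FreeGroup.of 0)) + ex 1 w * ex c (f (FreeGroup.of 1)) := by
  induction w using FreeGroup.induction_on with
  | C1 => simp [ex_one]
  | of i =>
    rw [ex_of, ex_of]
    fin_cases i <;> simp
  | inv_of i h =>
    rw [map_inv, ex_inv, ex_inv, ex_inv, h]
    ring
  | mul x y hx hy =>
    rw [map_mul, ex_mul, ex_mul, ex_mul, hx, hy]
    ring

/-- determinant of two characters of the free group of rank two -/
def det {n : ℕ} (u v : FreeGroup (Fin 2) →* Multiplicative (ZMod n)) : ZMod n :=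
  vl u (FreeGroup.of 0) * vl v (FreeGroup.of 1) - vl u (FreeGroup.of 1) * vl v (FreeGroup.of 0)

theorem det_comp {n : ℕ} (E : FreeGroup (Fin 2) ≃* FreeGroup (Fin 2))
    (u v : FreeGroup (Fin 2) →* Multiplicative (ZMod n)) :
    det (u.comp E.toMonoidHom) (v.comp E.toMonoidHom) = det u v ∨
    det (u.comp E.toMonoidHom) (v.comp E.toMonoidHom) = - det u v := by
  have key : ∀ c d : Fin 2, ex c (FreeGroup.of d) =
      ex 0 (E.symm (FreeGroup.of d)) * ex c (E (FreeGroup.of 0)) +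
      ex 1 (E.symm (FreeGroup.of d)) * ex c (E (FreeGroup.of 1)) := by
    intro c d
    have := ex_eq E.toMonoidHom c (E.symm (FreeGroup.of d))
    have h2 : E.toMonoidHom (E.symm (FreeGroup.of d)) = FreeGroup.of d := E.apply_symm_apply _
    rw [h2] at this
    exact this
  have k00 := key 0 0
  have k01 := key 0 1
  have k10 := key 1 0
  have k11 := key 1 1
  simp only [ex_of] at k00 k01 k10 k11
  simp only [if_true, show ¬ ((1 : Fin 2) = 0) by decide, show ¬ ((0 : Fin 2) = 1) by decide,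
    if_false] at k00 k01 k10 k11
  set e00 := ex 0 (E (FreeGroup.of 0))
  set e01 := ex 0 (E (FreeGroup.of 1))
  set e10 := ex 1 (E (FreeGroup.of 0))
  set e11 := ex 1 (E (FreeGroup.of 1))
  set f00 := ex 0 (E.symm (FreeGroup.of 0))
  set f10 := ex 1 (E.symm (FreeGroup.of 0))
  set f01 := ex 0 (E.symm (FreeGroup.of 1))
  set f11 := ex 1 (E.symm (FreeGroup.of 1))
  have hd : (e00 * e11 - e01 * e10) * (f00 * f11 - f01 * f10) = 1 := by
    have h : (e00 * e11 - e01 * e10) * (f00 * f11 - f01 * f10) =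
      (f00 * e00 + f10 * e01) * (f01 * e10 + f11 * e11) -
      (f01 * e00 + f11 * e01) * (f00 * e10 + f10 * e11) := by ring
    rw [h, ← k00, ← k11, ← k01, ← k10]
    norm_num
  have hu : ∀ (w : FreeGroup (Fin 2) →* Multiplicative (ZMod n)) (c : Fin 2),
      vl (w.comp E.toMonoidHom) (FreeGroup.of c) = (ex 0 (E (FreeGroup.of c)) : ZMod n) *
        vl w (FreeGroup.of 0) + (ex 1 (E (FreeGroup.of c)) : ZMod n) * vl w (FreeGroup.of 1) := by
    intro w c
    exact vl_eq w (E (FreeGroup.of c))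
  have hdet : det (u.comp E.toMonoidHom) (v.comp E.toMonoidHom) =
      ((e00 * e11 - e01 * e10 : ℤ) : ZMod n) * det u v := by
    unfold det
    rw [hu, hu, hu, hu]
    push_cast
    ring
  rcases Int.eq_one_or_neg_one_of_mul_eq_one hd with h | h
  · left
    rw [hdet, h]
    simp
  · right
    rw [hdet, h]
    simp

/-- two surjections with the same kernel differ by an isomorphism -/
theorem exists_equiv {G H K : Type*} [Group G] [Group H] [Group K] (f : G →* H) (k : G →* K)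
    (hf : Function.Surjective f) (hk : Function.Surjective k) (h : f.ker = k.ker) :
    ∃ E : H ≃* K, ∀ x, E (f x) = k x := by
  obtain ⟨l, hl⟩ := exists_factor f k hf h.le
  obtain ⟨l', hl'⟩ := exists_factor k f hk h.ge
  refine ⟨{ toFun := l, invFun := l', left_inv := ?_, right_inv := ?_, map_mul' := map_mul l },
    hl⟩
  · intro y
    obtain ⟨x, rfl⟩ := hf y
    rw [hl, hl']
  · intro y
    obtain ⟨x, rfl⟩ := hk y
    rw [hl', hl]

/-- the invariance -/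
theorem det_inv {n g g' : ℕ} (φ : Fin 3 → (Fg g →* FreeGroup (Fin g)))
    (φ' : Fin 3 → (Fg g' →* FreeGroup (Fin g'))) (hbd : ∀ i, φ i (bd g) = 1)
    (hbd' : ∀ i, φ' i (bd g') = 1) (W : WeakIsoMaps φ φ')
    (s₁ s₂ : Fg g' →* Multiplicative (ZMod n))
    (hs₁ : ∀ i, (φ' i).ker ≤ s₁.ker) (hs₂ : ∀ i, (φ' i).ker ≤ s₂.ker) :
    ∃ (σ : Equiv.Perm (Fin 3)) (t₁ t₂ : Fg g →* Multiplicative (ZMod n)),
      (∀ i, (φ i).ker ≤ t₁.ker) ∧ (∀ i, (φ i).ker ≤ t₂.ker) ∧
      ∀ i j, ∀ (L : Fg g →* FreeGroup (Fin 2)) (L' : Fg g' →* FreeGroup (Fin 2)),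
        Function.Surjective L → Function.Surjective L' →
        L.ker = (φ i).ker ⊔ (φ j).ker → L'.ker = (φ' (σ i)).ker ⊔ (φ' (σ j)).ker →
        ∀ u₁ u₂ v₁ v₂ : FreeGroup (Fin 2) →* Multiplicative (ZMod n),
          (∀ x, u₁ (L x) = t₁ x) → (∀ x, u₂ (L x) = t₂ x) →
          (∀ y, v₁ (L' y) = s₁ y) → (∀ y, v₂ (L' y) = s₂ y) →
          det u₁ u₂ = det v₁ v₂ ∨ det u₁ u₂ = - det v₁ v₂ := by
  obtain ⟨σ, Q, _, p, p', hp, hp', hk, hk', H⟩ := W
  have hkφ : ∀ i, p.ker ≤ (φ i).ker := by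
    intro i
    rw [hk]
    apply Subgroup.normalClosure_le_normal
    intro x hx
    rw [Set.mem_singleton_iff] at hx
    subst hx
    exact hbd i
  have hkφ' : ∀ i, p'.ker ≤ (φ' i).ker := by
    intro i
    rw [hk']
    apply Subgroup.normalClosure_le_normal
    intro x hx
    rw [Set.mem_singleton_iff] at hx
    subst hx
    exact hbd' i
  obtain ⟨S₁, hS₁⟩ := exists_factor p' s₁ hp' ((hkφ' 0).trans (hs₁ 0))
  obtain ⟨S₂, hS₂⟩ := exists_factor p' s₂ hp' ((hkφ' 0).trans (hs₂ 0))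
  refine ⟨σ, S₁.comp p, S₂.comp p, ?_, ?_, ?_⟩
  · intro i x hx
    obtain ⟨y, hy⟩ := hp' (p x)
    have h1 := (H i x y hy.symm).1 hx
    have h2 := hs₁ (σ i) h1
    rw [MonoidHom.mem_ker] at h2 ⊢
    rw [MonoidHom.comp_apply, ← hy, hS₁, h2]
  · intro i x hx
    obtain ⟨y, hy⟩ := hp' (p x)
    have h1 := (H i x y hy.symm).1 hx
    have h2 := hs₂ (σ i) h1
    rw [MonoidHom.mem_ker] at h2 ⊢
    rw [MonoidHom.comp_apply, ← hy, hS₂, h2]
  · intro i j L L' hL hL' hLk hLk' u₁ u₂ v₁ v₂ hu₁ hu₂ hv₁ hv₂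
    obtain ⟨Lb, hLb⟩ := exists_factor p' L' hp' (by
      rw [hLk']
      exact (hkφ' (σ i)).trans le_sup_left)
    have hker : L.ker = (Lb.comp p).ker := by
      apply le_antisymm
      · rw [hLk, sup_le_iff]
        constructor
        · intro x hx
          obtain ⟨y, hy⟩ := hp' (p x)
          have h1 : y ∈ (φ' (σ i)).ker := (H i x y hy.symm).1 hx
          have h2 : y ∈ L'.ker := by rw [hLk']; exact Subgroup.mem_sup_left h1
          rw [MonoidHom.mem_ker] at h2 ⊢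
          rw [MonoidHom.comp_apply, ← hy, hLb, h2]
        · intro x hx
          obtain ⟨y, hy⟩ := hp' (p x)
          have h1 : y ∈ (φ' (σ j)).ker := (H j x y hy.symm).1 hx
          have h2 : y ∈ L'.ker := by rw [hLk']; exact Subgroup.mem_sup_right h1
          rw [MonoidHom.mem_ker] at h2 ⊢
          rw [MonoidHom.comp_apply, ← hy, hLb, h2]
      · intro x hx
        obtain ⟨y, hy⟩ := hp' (p x)
        have h1 : y ∈ L'.ker := by
          rw [MonoidHom.mem_ker] at hx ⊢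
          rw [← hLb, hy]
          exact hx
        rw [hLk', Subgroup.mem_sup_of_normal_right] at h1
        obtain ⟨c, hc, d, hd, hcd⟩ := h1
        obtain ⟨xc, hxc⟩ := hp (p' c)
        obtain ⟨xd, hxd⟩ := hp (p' d)
        have h2 : xc ∈ (φ i).ker := (H i xc c hxc).2 hc
        have h3 : xd ∈ (φ j).ker := (H j xd d hxd).2 hd
        have h4 : (xc * xd)⁻¹ * x ∈ p.ker := by
          rw [MonoidHom.mem_ker, map_mul, map_inv, map_mul, hxc, hxd, ← map_mul, hcd, hy,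
            inv_mul_cancel]
        have h5 : (xc * xd)⁻¹ * x ∈ (φ i).ker := hkφ i h4
        rw [hLk]
        have h6 : x = xc * xd * ((xc * xd)⁻¹ * x) := by group
        rw [h6]
        exact mul_mem (mul_mem (Subgroup.mem_sup_left h2) (Subgroup.mem_sup_right h3))
          (Subgroup.mem_sup_left h5)
    have hsurj : Function.Surjective (Lb.comp p) := by
      intro z
      obtain ⟨y, hy⟩ := hL' z
      obtain ⟨x, hx⟩ := hp (p' y)
      exact ⟨x, by rw [MonoidHom.comp_apply, hx, hLb, hy]⟩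
    obtain ⟨E, hE⟩ := exists_equiv L (Lb.comp p) hL hsurj hker
    have hval : ∀ (S : Q →* Multiplicative (ZMod n)) (s : Fg g' →* Multiplicative (ZMod n))
        (u v : FreeGroup (Fin 2) →* Multiplicative (ZMod n)), (∀ y, S (p' y) = s y) →
        (∀ x, u (L x) = S (p x)) → (∀ y, v (L' y) = s y) → u = v.comp E.toMonoidHom := by
      intro S s u v h1 h2 h3
      apply MonoidHom.ext
      intro z
      obtain ⟨x, rfl⟩ := hL z
      obtain ⟨y, hy⟩ := hp' (p x)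
      rw [h2, ← hy, h1, ← h3, ← hLb, hy]
      exact congrArg v (hE x).symm
    have e1 := hval S₁ s₁ u₁ v₁ hS₁ hu₁ hv₁
    have e2 := hval S₂ s₂ u₂ v₂ hS₂ hu₂ hv₂
    rw [e1, e2]
    exact det_comp E v₁ v₂

/-- a sector together with the values at two elements -/
def Sec {n g : ℕ} (φ : Fin 3 → (Fg g →* FreeGroup (Fin g))) (A B : Fg g) (i j : Fin 3)
    (c : ZMod n) : Prop :=
  ∃ L : Fg g →* FreeGroup (Fin 2), Function.Surjective L ∧ L.ker = (φ i).ker ⊔ (φ j).ker ∧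
    ∃ α β : ℤ, L A = FreeGroup.of 0 ^ α ∧ L B = FreeGroup.of 1 ^ β ∧ ((α * β : ℤ) : ZMod n) = c

theorem Sec.symm {n g : ℕ} {φ : Fin 3 → (Fg g →* FreeGroup (Fin g))} {A B : Fg g} {i j : Fin 3}
    {c : ZMod n} (h : Sec φ A B i j c) : Sec φ A B j i c := by
  obtain ⟨L, h1, h2, h3⟩ := h
  exact ⟨L, h1, by rw [h2, sup_comm], h3⟩

/-- wedge of two characters -/
def wd {n g : ℕ} (s₁ s₂ : Fg g →* Multiplicative (ZMod n)) (A B : Fg g) : ZMod n :=
  vl s₁ A * vl s₂ B - vl s₂ A * vl s₁ B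

theorem wd_eq {n g : ℕ} (s₁ s₂ : Fg g →* Multiplicative (ZMod n)) (A B : Fg g)
    (L : Fg g →* FreeGroup (Fin 2)) (α β : ℤ) (hA : L A = FreeGroup.of 0 ^ α)
    (hB : L B = FreeGroup.of 1 ^ β) (u₁ u₂ : FreeGroup (Fin 2) →* Multiplicative (ZMod n))
    (h₁ : ∀ x, u₁ (L x) = s₁ x) (h₂ : ∀ x, u₂ (L x) = s₂ x) :
    wd s₁ s₂ A B = ((α * β : ℤ) : ZMod n) * det u₁ u₂ := by
  have hA1 : vl s₁ A = α * vl u₁ (FreeGroup.of 0) := by
    rw [← vl_zpow, ← hA]; unfold vl; rw [h₁]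
  have hA2 : vl s₂ A = α * vl u₂ (FreeGroup.of 0) := by
    rw [← vl_zpow, ← hA]; unfold vl; rw [h₂]
  have hB1 : vl s₁ B = β * vl u₁ (FreeGroup.of 1) := by
    rw [← vl_zpow, ← hB]; unfold vl; rw [h₁]
  have hB2 : vl s₂ B = β * vl u₂ (FreeGroup.of 1) := by
    rw [← vl_zpow, ← hB]; unfold vl; rw [h₂]
  unfold wd det
  rw [hA1, hA2, hB1, hB2]
  push_cast
  ring

theorem wedge_inv {n g g' : ℕ} (φ : Fin 3 → (Fg g →* FreeGroup (Fin g)))
    (φ' : Fin 3 → (Fg g' →* FreeGroup (Fin g'))) (hbd : ∀ i, φ i (bd g) = 1)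
    (hbd' : ∀ i, φ' i (bd g') = 1) (W : WeakIsoMaps φ φ')
    (s₁ s₂ : Fg g' →* Multiplicative (ZMod n))
    (hs₁ : ∀ i, (φ' i).ker ≤ s₁.ker) (hs₂ : ∀ i, (φ' i).ker ≤ s₂.ker) (A B : Fg g) (A' B' : Fg g')
    (c c' : Fin 3 → Fin 3 → ZMod n) (hc : ∀ i j, i ≠ j → Sec φ A B i j (c i j))
    (hc' : ∀ i j, i ≠ j → Sec φ' A' B' i j (c' i j)) :
    ∃ (σ : Equiv.Perm (Fin 3)) (w : ZMod n), ∀ i j, i ≠ j → ∃ d d' : ZMod n,
      w = c i j * d ∧ wd s₁ s₂ A' B' = c' (σ i) (σ j) * d' ∧ (d = d' ∨ d = - d') := by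
  obtain ⟨σ, t₁, t₂, ht₁, ht₂, H⟩ := det_inv φ φ' hbd hbd' W s₁ s₂ hs₁ hs₂
  refine ⟨σ, wd t₁ t₂ A B, fun i j hij => ?_⟩
  obtain ⟨L, hL, hLk, α, β, hA, hB, hcv⟩ := hc i j hij
  obtain ⟨L', hL', hLk', α', β', hA', hB', hcv'⟩ := hc' (σ i) (σ j) (fun h => hij (σ.injective h))
  obtain ⟨u₁, hu₁⟩ := exists_factor L t₁ hL (by rw [hLk]; exact sup_le (ht₁ i) (ht₁ j))
  obtain ⟨u₂, hu₂⟩ := exists_factor L t₂ hL (by rw [hLk]; exact sup_le (ht₂ i) (ht₂ j))
  obtain ⟨v₁, hv₁⟩ := exists_factor L' s₁ hL' (by rw [hLk']; exact sup_le (hs₁ _) (hs₁ _))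
  obtain ⟨v₂, hv₂⟩ := exists_factor L' s₂ hL' (by rw [hLk']; exact sup_le (hs₂ _) (hs₂ _))
  refine ⟨det u₁ u₂, det v₁ v₂, ?_, ?_, ?_⟩
  · rw [← hcv]
    exact wd_eq t₁ t₂ A B L α β hA hB u₁ u₂ hu₁ hu₂
  · rw [← hcv']
    exact wd_eq s₁ s₂ A' B' L' α' β' hA' hB' v₁ v₂ hv₁ hv₂
  · exact H i j L L' hL hL' hLk hLk' u₁ u₂ v₁ v₂ hu₁ hu₂ hv₁ hv₂

end Pool.Agent.Y524G
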