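import Pool.Agent.Y524G.Sum

/-! The genus three trisections induced by framed knots in `S¹ × S²` (or lens spaces). -/

namespace Pool.Agent.Y524G

open Pool.Agent.Y524F

/-- standard handlebody: kills the `b_i` -/
def std (g : ℕ) : Fg g →* FreeGroup (Fin g) :=
  FreeGroup.lift fun x => if x.2 then 1 else FreeGroup.of x.1

@[simp] theorem std_t (g : ℕ) (i : Fin g) : std g (FreeGroup.of (i, true)) = 1 := by
  simp [std]

@[simp] theorem std_f (g : ℕ) (i : Fin g) :
    std g (FreeGroup.of (i, false)) = FreeGroup.of i := by
  simp [std]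

theorem std_surj (g : ℕ) : Function.Surjective (std g) :=
  hom_surj_of_gen _ fun a => ⟨FreeGroup.of (a, false), std_f g a⟩

/-- A homomorphism killing the `b_i` kills the kernel of `std`. -/
theorem std_ker_le {g : ℕ} {G : Type*} [Group G] (f : Fg g →* G)
    (h : ∀ i, f (FreeGroup.of (i, true)) = 1) : (std g).ker ≤ f.ker := by
  have key : (FreeGroup.lift fun i : Fin g => f (FreeGroup.of (i, false))).comp (std g) = f := by
    apply FreeGroup.ext_hom
    rintro ⟨i, b⟩
    cases b
    · simp
    · simp [h i]
  intro x hx
  rw [MonoidHom.mem_ker] at hx ⊢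
  rw [← key, MonoidHom.comp_apply, hx, map_one]

theorem hom_bd {g : ℕ} {G : Type*} [Group G] (f : Fg g →* G)
    (h : ∀ i, f (FreeGroup.of (i, true)) = 1) : f (bd g) = 1 := by
  unfold bd
  rw [map_list_prod, List.map_ofFn]
  apply List.prod_eq_one
  intro x hx
  rw [List.mem_ofFn] at hx
  obtain ⟨i, rfl⟩ := hx
  simp [h i]

/-- The datum: the `α`-handlebody `f` of a genus two splitting of `S¹ × S²` with the standard
`β`-handlebody. -/
structure Datum (f : Fg 2 →* FreeGroup (Fin 2)) (L : Fg 2 →* FreeGroup (Fin 1)) : Prop where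
  surj : Function.Surjective f
  closed : f (bd 2) = 1
  surjL : Function.Surjective L
  ker : L.ker = f.ker ⊔ (std 2).ker

/-- first handlebody of the genus one sphere -/
def oneA : Fg 1 →* FreeGroup (Fin 1) :=
  FreeGroup.lift fun x => if x.2 then FreeGroup.of 0 else 1

theorem oneA_surj : Function.Surjective oneA :=
  hom_surj_of_gen _ fun a => ⟨FreeGroup.of (0, true), by rw [Subsingleton.elim a 0]; simp [oneA]⟩

/-- the trivial map -/
def triv : Fg 1 →* FreeGroup (Fin 0) := 1

theorem triv_surj : Function.Surjective triv :=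
  hom_surj_of_gen _ fun a => a.elim0

theorem triv_ker : triv.ker = oneA.ker ⊔ (std 1).ker := by
  apply le_antisymm
  · have : triv.ker = ⊤ := by simp [triv]
    rw [this]
    set M : Subgroup (Fg 1) := oneA.ker ⊔ (std 1).ker with hM
    have key : QuotientGroup.mk' M = 1 := by
      apply FreeGroup.ext_hom
      rintro ⟨i, b⟩
      rw [MonoidHom.one_apply, ← MonoidHom.mem_ker, QuotientGroup.ker_mk']
      cases b
      · apply Subgroup.mem_sup_left
        simp [MonoidHom.mem_ker, oneA]
      · apply Subgroup.mem_sup_right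
        simp [MonoidHom.mem_ker]
    rw [← QuotientGroup.ker_mk' M, key]
    simp
  · simp [triv]

/-- third handlebody -/
def third : Fg 3 →* FreeGroup (Fin 3) :=
  FreeGroup.lift fun x => if x = (0, false) then FreeGroup.of 0 else
    if x = (0, true) then FreeGroup.of 2 else
    if x = (1, false) then FreeGroup.of 1 else
    if x = (1, true) then 1 else
    if x = (2, false) then FreeGroup.of 2 else FreeGroup.of 0

theorem third_0f : third (FreeGroup.of (0, false)) = FreeGroup.of 0 := by simp [third]
theorem third_0t : third (FreeGroup.of (0, true)) = FreeGroup.of 2 := by simp [third]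
theorem third_1f : third (FreeGroup.of (1, false)) = FreeGroup.of 1 := by simp [third]
theorem third_1t : third (FreeGroup.of (1, true)) = 1 := by simp [third]
theorem third_2f : third (FreeGroup.of (2, false)) = FreeGroup.of 2 := by simp [third]
theorem third_2t : third (FreeGroup.of (2, true)) = FreeGroup.of 0 := by simp [third]

/-- The induced trisection. -/
def ind (f : Fg 2 →* FreeGroup (Fin 2)) : Fin 3 → (Fg 3 →* FreeGroup (Fin 3)) :=
  ![sumH f oneA, std 3, third]

theorem ind_0 (f : Fg 2 →* FreeGroup (Fin 2)) : ind f 0 = sumH f oneA := rfl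
theorem ind_1 (f : Fg 2 →* FreeGroup (Fin 2)) : ind f 1 = std 3 := rfl
theorem ind_2 (f : Fg 2 →* FreeGroup (Fin 2)) : ind f 2 = third := rfl

theorem std_3 : std 3 = sumH (std 2) (std 1) := by
  apply FreeGroup.ext_hom
  rintro ⟨a, b⟩
  refine Fin.addCases (m := 2) (n := 1) (fun j => ?_) (fun j => ?_) a
  · have := sumH_L (std 2) (std 1) (FreeGroup.of (j, b))
    rw [mL_of] at this
    refine Eq.trans ?_ this.symm
    cases b
    · simp
    · simp
  · have := sumH_R (std 2) (std 1) (FreeGroup.of (j, b))
    rw [mR_of] at this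
    refine Eq.trans ?_ this.symm
    cases b
    · simp
    · simp

/-- first sector -/
def L01 (L : Fg 2 →* FreeGroup (Fin 1)) : Fg 3 →* FreeGroup (Fin 1) := sumH L triv

/-- second sector -/
def L12 : Fg 3 →* FreeGroup (Fin 1) :=
  FreeGroup.lift fun x => if x = (1, false) then FreeGroup.of 0 else 1

/-- third sector -/
def L20 (L : Fg 2 →* FreeGroup (Fin 1)) : Fg 3 →* FreeGroup (Fin 1) :=
  cop (g := 2) (h := 1) L
    (FreeGroup.lift fun x => if x.2 then L (FreeGroup.of (0, false)) else 1)

theorem ext3 {G : Type*} [Group G] {f f' : Fg 3 →* G}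
    (h0f : f (FreeGroup.of (0, false)) = f' (FreeGroup.of (0, false)))
    (h0t : f (FreeGroup.of (0, true)) = f' (FreeGroup.of (0, true)))
    (h1f : f (FreeGroup.of (1, false)) = f' (FreeGroup.of (1, false)))
    (h1t : f (FreeGroup.of (1, true)) = f' (FreeGroup.of (1, true)))
    (h2f : f (FreeGroup.of (2, false)) = f' (FreeGroup.of (2, false)))
    (h2t : f (FreeGroup.of (2, true)) = f' (FreeGroup.of (2, true))) : f = f' := by
  apply FreeGroup.ext_hom
  rintro ⟨a, b⟩
  fin_cases a <;> cases b
  · exact h0f
  · exact h0t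
  · exact h1f
  · exact h1t
  · exact h2f
  · exact h2t

theorem third_surj : Function.Surjective third := by
  apply hom_surj_of_gen
  intro a
  fin_cases a
  · exact ⟨_, third_0f⟩
  · exact ⟨_, third_1f⟩
  · exact ⟨_, third_2f⟩

theorem third_bd : third (bd 3) = 1 := by
  unfold bd
  simp only [List.ofFn_succ, List.ofFn_zero, List.prod_cons, List.prod_nil, map_mul, map_inv,
    map_one]
  have e1 : (Fin.succ (0 : Fin 2)) = (1 : Fin 3) := rfl
  have e2 : (Fin.succ (Fin.succ (0 : Fin 1))) = (2 : Fin 3) := rfl
  rw [e1, e2, third_0f, third_0t, third_1f, third_1t, third_2f, third_2t]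
  group

section

variable {f : Fg 2 →* FreeGroup (Fin 2)} {L : Fg 2 →* FreeGroup (Fin 1)}

theorem sec01 (D : Datum f L) : Function.Surjective (L01 L) ∧
    (L01 L).ker = (ind f 0).ker ⊔ (ind f 1).ker := by
  refine ⟨sumH_surj _ _ D.surjL triv_surj, ?_⟩
  rw [ind_0, ind_1, std_3]
  exact sumH_ker _ _ _ _ _ _ D.surj (std_surj 2) oneA_surj (std_surj 1) D.surjL triv_surj D.ker
    triv_ker

theorem sec12 : Function.Surjective L12 ∧ L12.ker = (std 3).ker ⊔ third.ker := by
  constructor
  · apply hom_surj_of_gen
    intro a
    refine ⟨FreeGroup.of (1, false), ?_⟩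
    rw [Subsingleton.elim a 0]
    simp [L12]
  · apply le_antisymm
    · set M : Subgroup (Fg 3) := (std 3).ker ⊔ third.ker with hM
      have hkill : ∀ x, (std 3 x = 1 ∨ third x = 1) → QuotientGroup.mk' M x = 1 := by
        intro x hx
        rw [← MonoidHom.mem_ker, QuotientGroup.ker_mk']
        rcases hx with hx | hx
        · exact Subgroup.mem_sup_left hx
        · exact Subgroup.mem_sup_right hx
      have h0t : QuotientGroup.mk' M (FreeGroup.of (0, true)) = 1 := hkill _ (Or.inl (std_t 3 0))
      have h1t : QuotientGroup.mk' M (FreeGroup.of (1, true)) = 1 := hkill _ (Or.inl (std_t 3 1))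
      have h2t : QuotientGroup.mk' M (FreeGroup.of (2, true)) = 1 := hkill _ (Or.inl (std_t 3 2))
      have h2f : QuotientGroup.mk' M (FreeGroup.of (2, false)) = 1 := by
        have h := hkill (FreeGroup.of (2, false) * (FreeGroup.of (0, true))⁻¹)
          (Or.inr (by rw [map_mul, map_inv, third_2f, third_0t, mul_inv_cancel]))
        rw [map_mul, map_inv, h0t, inv_one, mul_one] at h
        exact h
      have h0f : QuotientGroup.mk' M (FreeGroup.of (0, false)) = 1 := by
        have h := hkill (FreeGroup.of (0, false) * (FreeGroup.of (2, true))⁻¹)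
          (Or.inr (by rw [map_mul, map_inv, third_0f, third_2t, mul_inv_cancel]))
        rw [map_mul, map_inv, h2t, inv_one, mul_one] at h
        exact h
      let s : FreeGroup (Fin 1) →* (Fg 3 ⧸ M) :=
        FreeGroup.lift fun _ => QuotientGroup.mk' M (FreeGroup.of (1, false))
      have key : s.comp L12 = QuotientGroup.mk' M := by
        apply ext3
        · rw [h0f, MonoidHom.comp_apply]
          simp [L12]
        · rw [h0t, MonoidHom.comp_apply]
          simp [L12]
        · rw [MonoidHom.comp_apply]
          simp [L12, s]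
        · rw [h1t, MonoidHom.comp_apply]
          simp [L12]
        · rw [h2f, MonoidHom.comp_apply]
          simp [L12]
        · rw [h2t, MonoidHom.comp_apply]
          simp [L12]
      intro x hx
      rw [MonoidHom.mem_ker] at hx
      have : QuotientGroup.mk' M x = 1 := by
        rw [← key, MonoidHom.comp_apply, hx, map_one]
      rwa [← MonoidHom.mem_ker, QuotientGroup.ker_mk'] at this
    · rw [sup_le_iff]
      constructor
      · apply std_ker_le
        intro i
        simp [L12]
      · let r : FreeGroup (Fin 3) →* FreeGroup (Fin 1) :=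
          FreeGroup.lift fun x => if x = 1 then FreeGroup.of 0 else 1
        have r0 : r (FreeGroup.of 0) = 1 := by simp [r]
        have r1 : r (FreeGroup.of 1) = FreeGroup.of 0 := by simp [r]
        have r2 : r (FreeGroup.of 2) = 1 := by simp [r]
        have key : r.comp third = L12 := by
          apply ext3
          · rw [MonoidHom.comp_apply, third_0f, r0]
            simp [L12]
          · rw [MonoidHom.comp_apply, third_0t, r2]
            simp [L12]
          · rw [MonoidHom.comp_apply, third_1f, r1]
            simp [L12]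
          · rw [MonoidHom.comp_apply, third_1t, map_one]
            simp [L12]
          · rw [MonoidHom.comp_apply, third_2f, r2]
            simp [L12]
          · rw [MonoidHom.comp_apply, third_2t, r0]
            simp [L12]
        intro x hx
        rw [MonoidHom.mem_ker] at hx ⊢
        rw [← key, MonoidHom.comp_apply, hx, map_one]

theorem mL_0 (b : Bool) : mL 2 1 (FreeGroup.of (0, b)) = FreeGroup.of (0, b) := mL_of 2 1 (0, b)
theorem mL_1 (b : Bool) : mL 2 1 (FreeGroup.of (1, b)) = FreeGroup.of (1, b) := mL_of 2 1 (1, b)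
theorem mR_0 (b : Bool) : mR 2 1 (FreeGroup.of (0, b)) = FreeGroup.of (2, b) := mR_of 2 1 (0, b)

theorem L20_f (L : Fg 2 →* FreeGroup (Fin 1)) : L20 L (FreeGroup.of (2, false)) = 1 := by
  rw [← mR_0]
  unfold L20
  rw [cop_R]
  simp

theorem L20_t (L : Fg 2 →* FreeGroup (Fin 1)) : L20 L (FreeGroup.of (2, true)) =
    L (FreeGroup.of (0, false)) := by
  rw [← mR_0]
  unfold L20
  rw [cop_R]
  simp

theorem L20_L (L : Fg 2 →* FreeGroup (Fin 1)) (x : Fg 2) : L20 L (mL 2 1 x) = L x := by
  unfold L20
  rw [cop_L]

theorem ext21 {G : Type*} [Group G] {f f' : Fg 3 →* G}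
    (h0 : ∀ x, f (mL 2 1 x) = f' (mL 2 1 x))
    (h2f : f (FreeGroup.of (2, false)) = f' (FreeGroup.of (2, false)))
    (h2t : f (FreeGroup.of (2, true)) = f' (FreeGroup.of (2, true))) : f = f' := by
  apply ext3
  · rw [← mL_0]; exact h0 _
  · rw [← mL_0]; exact h0 _
  · rw [← mL_1]; exact h0 _
  · rw [← mL_1]; exact h0 _
  · exact h2f
  · exact h2t

theorem sec20 (D : Datum f L) : Function.Surjective (L20 L) ∧
    (L20 L).ker = third.ker ⊔ (ind f 0).ker := by
  constructor
  · intro y
    obtain ⟨x, hx⟩ := D.surjL y
    exact ⟨mL 2 1 x, by rw [L20_L, hx]⟩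
  rw [ind_0]
  have hb : ∀ i, L (FreeGroup.of (i, true)) = 1 := by
    intro i
    have : FreeGroup.of (i, true) ∈ L.ker := by
      rw [D.ker]
      exact Subgroup.mem_sup_right (std_t 2 i)
    exact this
  apply le_antisymm
  · set M : Subgroup (Fg 3) := third.ker ⊔ (sumH f oneA).ker with hM
    have hkill : ∀ x, (third x = 1 ∨ sumH f oneA x = 1) → QuotientGroup.mk' M x = 1 := by
      intro x hx
      rw [← MonoidHom.mem_ker, QuotientGroup.ker_mk']
      rcases hx with hx | hx
      · exact Subgroup.mem_sup_left hx
      · exact Subgroup.mem_sup_right hx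
    have h2f : QuotientGroup.mk' M (FreeGroup.of (2, false)) = 1 := by
      apply hkill
      right
      rw [← mR_0, sumH_R]
      simp [oneA]
    have h0t : QuotientGroup.mk' M (FreeGroup.of (0, true)) = 1 := by
      have h := hkill (FreeGroup.of (2, false) * (FreeGroup.of (0, true))⁻¹)
        (Or.inl (by rw [map_mul, map_inv, third_2f, third_0t, mul_inv_cancel]))
      rw [map_mul, map_inv, h2f, one_mul, inv_eq_one] at h
      exact h
    have h1t : QuotientGroup.mk' M (FreeGroup.of (1, true)) = 1 := hkill _ (Or.inl third_1t)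
    have h2t : QuotientGroup.mk' M (FreeGroup.of (2, true)) =
        QuotientGroup.mk' M (FreeGroup.of (0, false)) := by
      have h := hkill (FreeGroup.of (2, true) * (FreeGroup.of (0, false))⁻¹)
        (Or.inl (by rw [map_mul, map_inv, third_2t, third_0f, mul_inv_cancel]))
      rw [map_mul, map_inv, mul_inv_eq_one] at h
      exact h
    obtain ⟨t, ht⟩ := exists_factor L ((QuotientGroup.mk' M).comp (mL 2 1)) D.surjL (by
      rw [D.ker, sup_le_iff]
      constructor
      · intro x hx
        rw [MonoidHom.mem_ker] at hx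
        rw [MonoidHom.mem_ker, MonoidHom.comp_apply]
        apply hkill
        right
        rw [sumH_L, hx, map_one]
      · apply std_ker_le
        intro i
        rw [MonoidHom.comp_apply]
        fin_cases i
        · exact (congrArg _ (mL_0 true)).trans h0t
        · exact (congrArg _ (mL_1 true)).trans h1t)
    have key : t.comp (L20 L) = QuotientGroup.mk' M := by
      apply ext21
      · intro x
        rw [MonoidHom.comp_apply, L20_L, ht, MonoidHom.comp_apply]
      · rw [MonoidHom.comp_apply, L20_f, map_one, h2f]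
      · rw [MonoidHom.comp_apply, L20_t, ht, MonoidHom.comp_apply, mL_0, h2t]
    intro x hx
    rw [MonoidHom.mem_ker] at hx
    have : QuotientGroup.mk' M x = 1 := by
      rw [← key, MonoidHom.comp_apply, hx, map_one]
    rwa [← MonoidHom.mem_ker, QuotientGroup.ker_mk'] at this
  · rw [sup_le_iff]
    constructor
    · let r : FreeGroup (Fin 3) →* FreeGroup (Fin 1) :=
        FreeGroup.lift fun x => if x = 0 then L (FreeGroup.of (0, false)) else
          if x = 1 then L (FreeGroup.of (1, false)) else 1
      have r0 : r (FreeGroup.of 0) = L (FreeGroup.of (0, false)) := by simp [r]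
      have r1 : r (FreeGroup.of 1) = L (FreeGroup.of (1, false)) := by simp [r]
      have r2 : r (FreeGroup.of 2) = 1 := by simp [r]
      have key : r.comp third = L20 L := by
        apply ext3
        · rw [MonoidHom.comp_apply, third_0f, r0, ← mL_0, L20_L]
        · rw [MonoidHom.comp_apply, third_0t, r2, ← mL_0, L20_L, hb]
        · rw [MonoidHom.comp_apply, third_1f, r1, ← mL_1, L20_L]
        · rw [MonoidHom.comp_apply, third_1t, map_one, ← mL_1, L20_L, hb]
        · rw [MonoidHom.comp_apply, third_2f, r2, L20_f]
        · rw [MonoidHom.comp_apply, third_2t, r0, L20_t]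
      intro x hx
      rw [MonoidHom.mem_ker] at hx ⊢
      rw [← key, MonoidHom.comp_apply, hx, map_one]
    · unfold L20
      refine cop_ker f oneA D.surj oneA_surj _ _ ?_ ?_
      · rw [D.ker]
        exact le_sup_left
      · let r : FreeGroup (Fin 1) →* FreeGroup (Fin 1) :=
          FreeGroup.lift fun _ => L (FreeGroup.of (0, false))
        have key : r.comp oneA = (FreeGroup.lift fun x : Fin 1 × Bool =>
            if x.2 then L (FreeGroup.of (0, false)) else 1) := by
          apply FreeGroup.ext_hom
          rintro ⟨i, b⟩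
          cases b <;> simp [oneA, r]
        intro x hx
        rw [MonoidHom.mem_ker] at hx ⊢
        rw [← key, MonoidHom.comp_apply, hx, map_one]

/-- The induced maps are a `(3;1)` group trisection. -/
theorem isTri_ind (D : Datum f L) : IsTri (ind f) 1 := by
  refine ⟨fun i => ?_, fun i => ?_, ?_⟩
  · fin_cases i
    · exact sumH_surj _ _ D.surj oneA_surj
    · exact std_surj 3
    · exact third_surj
  · fin_cases i
    · show sumH f oneA (bd (2 + 1)) = 1
      rw [bd_add, map_mul, sumH_L, sumH_R, D.closed, map_one, one_mul]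
      have : oneA (bd 1) = 1 := by
        unfold bd
        simp [oneA]
      rw [this, map_one]
    · exact hom_bd _ (fun i => std_t 3 i)
    · exact third_bd
  · have h01 : PairFree 1 (ind f 0) (ind f 1) := ⟨L01 L, sec01 D⟩
    have h12 : PairFree 1 (ind f 1) (ind f 2) := ⟨L12, sec12⟩
    have h20 : PairFree 1 (ind f 2) (ind f 0) := ⟨L20 L, sec20 D⟩
    have hs : ∀ i j, PairFree 1 (ind f i) (ind f j) → PairFree 1 (ind f j) (ind f i) := by
      rintro i j ⟨Λ, h1, h2⟩
      exact ⟨Λ, h1, by rw [h2, sup_comm]⟩
    intro i j hij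
    fin_cases i <;> fin_cases j
    · exact absurd rfl hij
    · exact h01
    · exact hs _ _ h20
    · exact hs _ _ h01
    · exact absurd rfl hij
    · exact h12
    · exact h20
    · exact hs _ _ h12
    · exact absurd rfl hij

end

end Pool.Agent.Y524G
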