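import Pool.Agent.Y524G.Main
import Pool.Agent.Y524G.Defs2

/-! Invariance of the class of the second handle for induced trisections. -/

namespace Pool.Agent.Y524G

open Pool.Agent.Y524F

/-- exponent sum -/
def ab1 : FreeGroup (Fin 1) →* Multiplicative ℤ := FreeGroup.lift fun _ => Multiplicative.ofAdd 1

/-- exponent sum -/
def ex1 (w : FreeGroup (Fin 1)) : ℤ := (ab1 w).toAdd

theorem ex1_mul (x y : FreeGroup (Fin 1)) : ex1 (x * y) = ex1 x + ex1 y := by simp [ex1]
theorem ex1_inv (x : FreeGroup (Fin 1)) : ex1 x⁻¹ = - ex1 x := by simp [ex1]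
theorem ex1_one : ex1 1 = 0 := by simp [ex1]
theorem ex1_of : ex1 (FreeGroup.of 0) = 1 := by simp [ex1, ab1]

theorem vl_eq1 {n : ℕ} (u : FreeGroup (Fin 1) →* Multiplicative (ZMod n)) (w : FreeGroup (Fin 1)) :
    vl u w = (ex1 w : ZMod n) * vl u (FreeGroup.of 0) := by
  induction w using FreeGroup.induction_on with
  | C1 => simp [vl_one, ex1_one]
  | of i =>
    rw [Subsingleton.elim i 0, ex1_of]
    simp
  | inv_of i h =>
    rw [vl_inv, ex1_inv, h]
    push_cast
    ring
  | mul x y hx hy =>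
    rw [vl_mul, ex1_mul, hx, hy]
    push_cast
    ring

theorem ex1_eq (f : FreeGroup (Fin 1) →* FreeGroup (Fin 1)) (w : FreeGroup (Fin 1)) :
    ex1 (f w) = ex1 w * ex1 (f (FreeGroup.of 0)) := by
  induction w using FreeGroup.induction_on with
  | C1 => simp [ex1_one]
  | of i =>
    rw [Subsingleton.elim i 0, ex1_of]
    simp
  | inv_of i h =>
    rw [map_inv, ex1_inv, ex1_inv, h]
    ring
  | mul x y hx hy =>
    rw [map_mul, ex1_mul, ex1_mul, hx, hy]
    ring

theorem vl_comp1 {n : ℕ} (E : FreeGroup (Fin 1) ≃* FreeGroup (Fin 1))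
    (u : FreeGroup (Fin 1) →* Multiplicative (ZMod n)) :
    vl (u.comp E.toMonoidHom) (FreeGroup.of 0) = vl u (FreeGroup.of 0) ∨
    vl (u.comp E.toMonoidHom) (FreeGroup.of 0) = - vl u (FreeGroup.of 0) := by
  have h1 : ex1 (FreeGroup.of 0) = ex1 (E.symm (FreeGroup.of 0)) * ex1 (E (FreeGroup.of 0)) := by
    have := ex1_eq E.toMonoidHom (E.symm (FreeGroup.of 0))
    have h2 : E.toMonoidHom (E.symm (FreeGroup.of 0)) = FreeGroup.of 0 := E.apply_symm_apply _
    rw [h2] at this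
    exact this
  rw [ex1_of] at h1
  have h3 : vl (u.comp E.toMonoidHom) (FreeGroup.of 0) =
      (ex1 (E (FreeGroup.of 0)) : ZMod n) * vl u (FreeGroup.of 0) :=
    vl_eq1 u (E (FreeGroup.of 0))
  rw [h3]
  rcases Int.eq_one_or_neg_one_of_mul_eq_one (show ex1 (E (FreeGroup.of 0)) *
      ex1 (E.symm (FreeGroup.of 0)) = 1 by rw [mul_comm]; exact h1.symm) with h | h
  · left; rw [h]; simp
  · right; rw [h]; simp

/-- the invariance for one character -/
theorem char_inv {n g g' k : ℕ} (φ : Fin 3 → (Fg g →* FreeGroup (Fin g)))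
    (φ' : Fin 3 → (Fg g' →* FreeGroup (Fin g'))) (hbd : ∀ i, φ i (bd g) = 1)
    (hbd' : ∀ i, φ' i (bd g') = 1) (W : WeakIsoMaps φ φ')
    (s : Fg g' →* Multiplicative (ZMod n)) (hs : ∀ i, (φ' i).ker ≤ s.ker) :
    ∃ (σ : Equiv.Perm (Fin 3)) (t : Fg g →* Multiplicative (ZMod n)),
      (∀ i, (φ i).ker ≤ t.ker) ∧
      ∀ i j, ∀ (L : Fg g →* FreeGroup (Fin k)) (L' : Fg g' →* FreeGroup (Fin k)),
        Function.Surjective L → Function.Surjective L' →
        L.ker = (φ i).ker ⊔ (φ j).ker → L'.ker = (φ' (σ i)).ker ⊔ (φ' (σ j)).ker →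
        ∀ u v : FreeGroup (Fin k) →* Multiplicative (ZMod n),
          (∀ x, u (L x) = t x) → (∀ y, v (L' y) = s y) →
          ∃ E : FreeGroup (Fin k) ≃* FreeGroup (Fin k), u = v.comp E.toMonoidHom := by
  obtain ⟨σ, Q, _, p, p', hp, hp', hk, hk', H⟩ := W
  have hkφ : ∀ i, p.ker ≤ (φ i).ker := by
    intro i
    rw [hk]
    apply Subgroup.normalClosure_le_normal
    intro x hx
    rw [Set.mem_singleton_iff] at hx
    subst hx
    exact hbd i
  have hkφ' : ∀ i, p'.ker ≤ (φ' i).ker := by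
    intro i
    rw [hk']
    apply Subgroup.normalClosure_le_normal
    intro x hx
    rw [Set.mem_singleton_iff] at hx
    subst hx
    exact hbd' i
  obtain ⟨S₁, hS₁⟩ := exists_factor p' s hp' ((hkφ' 0).trans (hs 0))
  refine ⟨σ, S₁.comp p, ?_, ?_⟩
  · intro i x hx
    obtain ⟨y, hy⟩ := hp' (p x)
    have h1 := (H i x y hy.symm).1 hx
    have h2 := hs (σ i) h1
    rw [MonoidHom.mem_ker] at h2 ⊢
    rw [MonoidHom.comp_apply, ← hy, hS₁, h2]
  · intro i j L L' hL hL' hLk hLk' u v hu hv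
    obtain ⟨Lb, hLb⟩ := exists_factor p' L' hp' (by
      rw [hLk']
      exact (hkφ' (σ i)).trans le_sup_left)
    have hker : L.ker = (Lb.comp p).ker := by
      apply le_antisymm
      · rw [hLk, sup_le_iff]
        constructor
        · intro x hx
          obtain ⟨y, hy⟩ := hp' (p x)
          have h1 : y ∈ (φ' (σ i)).ker := (H i x y hy.symm).1 hx
          have h2 : y ∈ L'.ker := by rw [hLk']; exact Subgroup.mem_sup_left h1
          rw [MonoidHom.mem_ker] at h2 ⊢
          rw [MonoidHom.comp_apply, ← hy, hLb, h2]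
        · intro x hx
          obtain ⟨y, hy⟩ := hp' (p x)
          have h1 : y ∈ (φ' (σ j)).ker := (H j x y hy.symm).1 hx
          have h2 : y ∈ L'.ker := by rw [hLk']; exact Subgroup.mem_sup_right h1
          rw [MonoidHom.mem_ker] at h2 ⊢
          rw [MonoidHom.comp_apply, ← hy, hLb, h2]
      · intro x hx
        obtain ⟨y, hy⟩ := hp' (p x)
        have h1 : y ∈ L'.ker := by
          rw [MonoidHom.mem_ker] at hx ⊢
          rw [← hLb, hy]
          exact hx
        rw [hLk', Subgroup.mem_sup_of_normal_right] at h1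
        obtain ⟨c, hc, d, hd, hcd⟩ := h1
        obtain ⟨xc, hxc⟩ := hp (p' c)
        obtain ⟨xd, hxd⟩ := hp (p' d)
        have h2 : xc ∈ (φ i).ker := (H i xc c hxc).2 hc
        have h3 : xd ∈ (φ j).ker := (H j xd d hxd).2 hd
        have h4 : (xc * xd)⁻¹ * x ∈ p.ker := by
          rw [MonoidHom.mem_ker, map_mul, map_inv, map_mul, hxc, hxd, ← map_mul, hcd, hy,
            inv_mul_cancel]
        have h5 : (xc * xd)⁻¹ * x ∈ (φ i).ker := hkφ i h4
        rw [hLk]
        have h6 : x = xc * xd * ((xc * xd)⁻¹ * x) := by group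
        rw [h6]
        exact mul_mem (mul_mem (Subgroup.mem_sup_left h2) (Subgroup.mem_sup_right h3))
          (Subgroup.mem_sup_left h5)
    have hsurj : Function.Surjective (Lb.comp p) := by
      intro z
      obtain ⟨y, hy⟩ := hL' z
      obtain ⟨x, hx⟩ := hp (p' y)
      exact ⟨x, by rw [MonoidHom.comp_apply, hx, hLb, hy]⟩
    obtain ⟨E, hE⟩ := exists_equiv L (Lb.comp p) hL hsurj hker
    refine ⟨E, ?_⟩
    apply MonoidHom.ext
    intro z
    obtain ⟨x, rfl⟩ := hL z
    obtain ⟨y, hy⟩ := hp' (p x)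
    have hxx : (S₁.comp p) x = S₁ (p x) := rfl
    rw [hu, hxx, ← hy, hS₁, ← hv, ← hLb, hy]
    exact congrArg v (hE x).symm

/-- a sector with cyclic push-out together with the value of a character -/
def SecC {n g : ℕ} (φ : Fin 3 → (Fg g →* FreeGroup (Fin g)))
    (s : Fg g →* Multiplicative (ZMod n)) (i j : Fin 3) (c : ZMod n) : Prop :=
  ∃ (L : Fg g →* FreeGroup (Fin 1)) (v : FreeGroup (Fin 1) →* Multiplicative (ZMod n)),
    Function.Surjective L ∧ L.ker = (φ i).ker ⊔ (φ j).ker ∧ (∀ x, v (L x) = s x) ∧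
    vl v (FreeGroup.of 0) = c

theorem SecC.symm {n g : ℕ} {φ : Fin 3 → (Fg g →* FreeGroup (Fin g))}
    {s : Fg g →* Multiplicative (ZMod n)} {i j : Fin 3} {c : ZMod n} (h : SecC φ s i j c) :
    SecC φ s j i c := by
  obtain ⟨L, v, h1, h2, h3⟩ := h
  exact ⟨L, v, h1, by rw [h2, sup_comm], h3⟩

section

variable {f : Fg 2 →* FreeGroup (Fin 2)} {L : Fg 2 →* FreeGroup (Fin 1)} {m : ℤ}

/-- the character with its three values -/
theorem exists_chi' (D : Datum f L) (N : ℕ) (hn : L a0 = FreeGroup.of 0 ^ (N : ℤ))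
    (hm : L a1 = FreeGroup.of 0 ^ m) :
    ∃ χ : Fg 3 →* Multiplicative (ZMod N), (∀ i, (ind f i).ker ≤ χ.ker) ∧
      SecC (ind f) χ 0 1 1 ∧ SecC (ind f) χ 1 2 m ∧ SecC (ind f) χ 2 0 1 := by
  let q : FreeGroup (Fin 1) →* Multiplicative (ZMod N) :=
    FreeGroup.lift fun _ => Multiplicative.ofAdd 1
  let r : FreeGroup (Fin 1) →* Multiplicative (ZMod N) :=
    FreeGroup.lift fun _ => Multiplicative.ofAdd (m : ZMod N)
  have hq : ∀ k : ℤ, vl q (FreeGroup.of 0 ^ k) = k := by
    intro k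
    rw [vl_zpow]
    simp [vl, q]
  have hq1 : vl q (FreeGroup.of 0) = 1 := by simp [vl, q]
  have hr1 : vl r (FreeGroup.of 0) = m := by simp [vl, r]
  have h01 : ∀ x, L01 L (mL 2 1 x) = FreeGroup.map (Fin.castAdd 0) (L x) := by
    intro x
    unfold L01
    rw [sumH_L]
  have h01R : ∀ x, L01 L (mR 2 1 x) = 1 := by
    intro x
    unfold L01
    rw [sumH_R]
    simp [triv]
  have hqn : q (FreeGroup.of 0 ^ (N : ℤ)) = 1 := by
    have h := hq N
    rw [Int.cast_natCast, ZMod.natCast_self] at h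
    exact h
  have hb := D.b
  -- values on generators
  have e0f : q (L01 L (FreeGroup.of (0, false))) = 1 := by
    rw [← mL_0, h01, hn, map_zpow, FreeGroup.map.of]
    exact hqn
  have e0t : L01 L (FreeGroup.of (0, true)) = 1 := by
    rw [← mL_0, h01, hb, map_one]
  have e1f : L01 L (FreeGroup.of (1, false)) = FreeGroup.of 0 ^ m := by
    rw [← mL_1, h01, hm, map_zpow, FreeGroup.map.of]
    rfl
  have e1t : L01 L (FreeGroup.of (1, true)) = 1 := by
    rw [← mL_1, h01, hb, map_one]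
  have e2f : L01 L (FreeGroup.of (2, false)) = 1 := by rw [← mR_0, h01R]
  have e2t : L01 L (FreeGroup.of (2, true)) = 1 := by rw [← mR_0, h01R]
  have hqm : q (FreeGroup.of 0 ^ m) = r (FreeGroup.of 0) := by
    have h1 := hq m
    have h2 := hr1
    unfold vl at h1 h2
    rw [← h2] at h1
    exact Multiplicative.toAdd.injective h1
  have k12 : r.comp L12 = q.comp (L01 L) := by
    apply ext3
    · rw [MonoidHom.comp_apply, MonoidHom.comp_apply, e0f]; simp [L12]
    · rw [MonoidHom.comp_apply, MonoidHom.comp_apply, e0t]; simp [L12]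
    · rw [MonoidHom.comp_apply, MonoidHom.comp_apply, e1f, hqm]; simp [L12]
    · rw [MonoidHom.comp_apply, MonoidHom.comp_apply, e1t]; simp [L12]
    · rw [MonoidHom.comp_apply, MonoidHom.comp_apply, e2f]; simp [L12]
    · rw [MonoidHom.comp_apply, MonoidHom.comp_apply, e2t]; simp [L12]
  have k20 : q.comp (L20 L) = q.comp (L01 L) := by
    apply ext3
    · rw [MonoidHom.comp_apply, MonoidHom.comp_apply, e0f, ← mL_0, L20_L, hn, hqn]
    · rw [MonoidHom.comp_apply, MonoidHom.comp_apply, e0t, ← mL_0, L20_L, hb]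
    · rw [MonoidHom.comp_apply, MonoidHom.comp_apply, e1f, ← mL_1, L20_L, hm]
    · rw [MonoidHom.comp_apply, MonoidHom.comp_apply, e1t, ← mL_1, L20_L, hb]
    · rw [MonoidHom.comp_apply, MonoidHom.comp_apply, e2f, L20_f]
    · rw [MonoidHom.comp_apply, MonoidHom.comp_apply, e2t, L20_t, hn, hqn, map_one]
  have c01 : SecC (ind f) (q.comp (L01 L)) 0 1 1 :=
    ⟨L01 L, q, (sec01 D).1, (sec01 D).2, fun _ => rfl, hq1⟩
  have c12 : SecC (ind f) (q.comp (L01 L)) 1 2 m :=
    ⟨L12, r, sec12.1, sec12.2, fun x => DFunLike.congr_fun k12 x, hr1⟩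
  have c20 : SecC (ind f) (q.comp (L01 L)) 2 0 1 :=
    ⟨L20 L, q, (sec20 D).1, (sec20 D).2, fun x => DFunLike.congr_fun k20 x, hq1⟩
  refine ⟨q.comp (L01 L), ?_, c01, c12, c20⟩
  have hle : ∀ i j c, SecC (ind f) (q.comp (L01 L)) i j c →
      (ind f i).ker ≤ (q.comp (L01 L)).ker := by
    rintro i j c ⟨Λ, v, -, hk, hv, -⟩ x hx
    have h1 : x ∈ Λ.ker := by rw [hk]; exact Subgroup.mem_sup_left hx
    rw [MonoidHom.mem_ker] at h1 ⊢
    rw [← hv, h1, map_one]
  intro i
  fin_cases i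
  · exact hle _ _ _ c01
  · exact hle _ _ _ c12
  · exact hle _ _ _ c20

end

/-- The invariant. -/
theorem inv_m {f f' : Fg 2 →* FreeGroup (Fin 2)} {L L' : Fg 2 →* FreeGroup (Fin 1)} {m m' : ℤ}
    {N : ℕ} (D : Datum f L) (D' : Datum f' L')
    (hm : L a1 = FreeGroup.of 0 ^ m)
    (hn' : L' a0 = FreeGroup.of 0 ^ (N : ℤ)) (hm' : L' a1 = FreeGroup.of 0 ^ m')
    (W : WeakIsoMaps (ind f) (ind f')) : (m : ZMod N) = m' ∨ (m : ZMod N) = - m' := by
  obtain ⟨χ, hχ, c01, c12, c20⟩ := exists_chi' D' N hn' hm'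
  obtain ⟨σ, t, ht, H⟩ := char_inv (n := N) (k := 1) _ _ (isTri_ind D).2.1 (isTri_ind D').2.1 W χ hχ
  -- values of `t`
  have key : ∀ i j, i ≠ j → ∀ α : ℤ, Sec1 (ind f) (FreeGroup.of (1, false)) i j α →
      ∀ c : ZMod N, SecC (ind f') χ (σ i) (σ j) c →
      vl t (FreeGroup.of (1, false)) = α * c ∨ vl t (FreeGroup.of (1, false)) = - (α * c) := by
    rintro i j hij α ⟨Λ, hΛ, hΛk, hΛa⟩ c ⟨Λ', v, hΛ', hΛk', hv, hvc⟩
    obtain ⟨u, hu⟩ := exists_factor Λ t hΛ (by rw [hΛk]; exact sup_le (ht i) (ht j))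
    obtain ⟨E, hE⟩ := H i j Λ Λ' hΛ hΛ' hΛk hΛk' u v hu hv
    have h1 : vl t (FreeGroup.of (1, false)) = α * vl u (FreeGroup.of 0) := by
      rw [← vl_zpow, ← hΛa]
      unfold vl
      rw [hu]
    rw [h1]
    have h2 := vl_comp1 E v
    rw [← hE, hvc] at h2
    rcases h2 with h | h
    · left; rw [h]
    · right; rw [h]; ring
  have s01 := sec1_01 D hm
  have s12 := sec1_12 (f := f)
  have s20 := sec1_20 D hm
  -- all six relabellings
  have k01 := key 0 1 (by decide) m s01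
  have k12 := key 1 2 (by decide) 1 s12
  have k20 := key 2 0 (by decide) m s20
  set w := vl t (FreeGroup.of (1, false)) with hw
  clear_value w
  have hperm : ∀ τ : Equiv.Perm (Fin 3),
      (τ 0 = 0 ∧ τ 1 = 1 ∧ τ 2 = 2) ∨ (τ 0 = 1 ∧ τ 1 = 0 ∧ τ 2 = 2) ∨
      (τ 0 = 0 ∧ τ 1 = 2 ∧ τ 2 = 1) ∨ (τ 0 = 2 ∧ τ 1 = 1 ∧ τ 2 = 0) ∨
      (τ 0 = 1 ∧ τ 1 = 2 ∧ τ 2 = 0) ∨ (τ 0 = 2 ∧ τ 1 = 0 ∧ τ 2 = 1) := by decide
  have fin1 : ∀ x y : ZMod N, (x = 1 * y ∨ x = -(1 * y)) → x = y ∨ x = -y := by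
    intro x y h
    rwa [one_mul] at h
  have fin2 : (w = m * 1 ∨ w = -(m * 1)) → (w = 1 * (m' : ZMod N) ∨ w = -(1 * (m' : ZMod N))) →
      (m : ZMod N) = m' ∨ (m : ZMod N) = - m' := by
    intro h h'
    rcases h with h | h <;> rcases h' with h' | h' <;> rw [h] at h'
    · left; simpa using h'
    · right; simpa using h'
    · right
      have : -(m : ZMod N) = m' := by simpa using h'
      rw [← this]; ring
    · left
      have : -(m : ZMod N) = -m' := by simpa using h'
      exact neg_injective this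
  have fin3 : (w = m * 1 ∨ w = -(m * 1)) → (w = 1 * (1 : ZMod N) ∨ w = -(1 * (1 : ZMod N))) →
      (w = m * (m' : ZMod N) ∨ w = -(m * (m' : ZMod N))) →
      (m : ZMod N) = m' ∨ (m : ZMod N) = - m' := by
    intro h h' h''
    have hm1 : (m : ZMod N) = 1 ∨ (m : ZMod N) = -1 := by
      rcases h with h | h <;> rcases h' with h' | h' <;> rw [h] at h'
      · left; simpa using h'
      · right; simpa using h'
      · right
        have : -(m : ZMod N) = 1 := by simpa using h'
        rw [← this]; ring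
      · left
        have : -(m : ZMod N) = -1 := by simpa using h'
        exact neg_injective this
    have hm2 : (m' : ZMod N) = 1 ∨ (m' : ZMod N) = -1 := by
      rcases hm1 with e | e <;> rw [e] at h'' <;> rcases h' with h' | h' <;>
        rcases h'' with h'' | h'' <;> rw [h'] at h''
      · left; simpa using h''.symm
      · right
        have : (1 : ZMod N) = - m' := by simpa using h''
        rw [this]; ring
      · right; simpa using h''.symm
      · left
        have : (-1 : ZMod N) = - m' := by simpa using h''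
        exact (neg_injective this).symm
      · right
        have : (1 : ZMod N) = - m' := by simpa using h''
        rw [this]; ring
      · left
        have : (1 : ZMod N) = m' := by simpa using h''
        exact this.symm
      · left
        have : (-1 : ZMod N) = - m' := by simpa using h''
        exact (neg_injective this).symm
      · right
        have : (-1 : ZMod N) = m' := by simpa using h''
        exact this.symm
    rcases hm1 with e | e <;> rcases hm2 with e' | e' <;> rw [e, e'] <;> simp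
  have i1 : ((1 : ℤ) : ZMod N) = 1 := Int.cast_one
  rw [i1] at k12
  rcases hperm σ with ⟨h0, h1, h2⟩ | ⟨h0, h1, h2⟩ | ⟨h0, h1, h2⟩ | ⟨h0, h1, h2⟩ | ⟨h0, h1, h2⟩ |
    ⟨h0, h1, h2⟩ <;> rw [h0, h1] at k01 <;> rw [h1, h2] at k12 <;> rw [h2, h0] at k20
  · exact fin2 (k01 1 c01) (k12 m' c12)
  · exact fin3 (k01 1 c01.symm) (k12 1 c20.symm) (k20 m' c12.symm)
  · exact fin2 (k01 1 c20.symm) (k12 m' c12.symm)
  · exact fin3 (k20 1 c20.symm) (k12 1 c01.symm) (k01 m' c12.symm)
  · exact fin3 (k20 1 c01) (k12 1 c20) (k01 m' c12)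
  · exact fin3 (k01 1 c20) (k12 1 c01) (k20 m' c12)

end Pool.Agent.Y524G
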