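import Pool.Agent.Y524G.Data
import Pool.Agent.Y524G.Det

/-! Balanced trisections with the same core. -/

namespace Pool.Agent.Y524G

open Pool.Agent.Y524F

/-- a sector with cyclic push-out together with the value at one element -/
def Sec1 {g : ℕ} (φ : Fin 3 → (Fg g →* FreeGroup (Fin g))) (A : Fg g) (i j : Fin 3) (α : ℤ) :
    Prop :=
  ∃ L : Fg g →* FreeGroup (Fin 1), Function.Surjective L ∧ L.ker = (φ i).ker ⊔ (φ j).ker ∧
    L A = FreeGroup.of 0 ^ α

theorem Sec1.symm {g : ℕ} {φ : Fin 3 → (Fg g →* FreeGroup (Fin g))} {A : Fg g} {i j : Fin 3}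
    {α : ℤ} (h : Sec1 φ A i j α) : Sec1 φ A j i α := by
  obtain ⟨L, h1, h2, h3⟩ := h
  exact ⟨L, h1, by rw [h2, sup_comm], h3⟩

theorem Sec1.sum {g h : ℕ} {φ : Fin 3 → (Fg g →* FreeGroup (Fin g))}
    {ψ : Fin 3 → (Fg h →* FreeGroup (Fin h))} (hφ : ∀ i, Function.Surjective (φ i))
    (hψ : ∀ i, Function.Surjective (ψ i)) {A : Fg g} {B : Fg h} {i j : Fin 3} {α β : ℤ}
    (h1 : Sec1 φ A i j α) (h2 : Sec1 ψ B i j β) {n : ℕ} {c : ZMod n}
    (hc : ((α * β : ℤ) : ZMod n) = c) :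
    Sec (sumMaps φ ψ) (mL g h A) (mR g h B) i j c := by
  obtain ⟨L, hL, hLk, hLA⟩ := h1
  obtain ⟨L', hL', hLk', hLB⟩ := h2
  refine ⟨sumH L L', sumH_surj _ _ hL hL', ?_, α, β, ?_, ?_, hc⟩
  · rw [sumMaps_eq, sumMaps_eq]
    exact sumH_ker _ _ _ _ _ _ (hφ i) (hφ j) (hψ i) (hψ j) hL hL' hLk hLk'
  · rw [sumH_L, hLA, map_zpow, FreeGroup.map.of]
    rfl
  · rw [sumH_R, hLB, map_zpow, FreeGroup.map.of]
    rfl

section

variable {f : Fg 2 →* FreeGroup (Fin 2)} {L : Fg 2 →* FreeGroup (Fin 1)} {n m : ℤ}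

theorem sec1_01 (D : Datum f L) (hm : L a1 = FreeGroup.of 0 ^ m) :
    Sec1 (ind f) (FreeGroup.of (1, false)) 0 1 m := by
  refine ⟨L01 L, (sec01 D).1, (sec01 D).2, ?_⟩
  rw [← mL_1]
  unfold L01
  rw [sumH_L, hm, map_zpow, FreeGroup.map.of]
  rfl

theorem sec1_12 : Sec1 (ind f) (FreeGroup.of (1, false)) 1 2 1 := by
  refine ⟨L12, sec12.1, sec12.2, ?_⟩
  simp [L12]

theorem sec1_20 (D : Datum f L) (hm : L a1 = FreeGroup.of 0 ^ m) :
    Sec1 (ind f) (FreeGroup.of (1, false)) 2 0 m := by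
  refine ⟨L20 L, (sec20 D).1, (sec20 D).2, ?_⟩
  rw [← mL_1, L20_L, hm]

/-- the character -/
theorem exists_chi (D : Datum f L) (N : ℕ) (hn : L a0 = FreeGroup.of 0 ^ (N : ℤ))
    (hm : L a1 = FreeGroup.of 0 ^ m) :
    ∃ χ : Fg 3 →* Multiplicative (ZMod N), (∀ i, (ind f i).ker ≤ χ.ker) ∧
      vl χ (FreeGroup.of (1, false)) = m := by
  let q : FreeGroup (Fin 1) →* Multiplicative (ZMod N) :=
    FreeGroup.lift fun _ => Multiplicative.ofAdd 1
  have hq : ∀ k : ℤ, vl q (FreeGroup.of 0 ^ k) = k := by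
    intro k
    rw [vl_zpow]
    simp [vl, q]
  have h01 : ∀ x, L01 L (mL 2 1 x) = FreeGroup.map (Fin.castAdd 0) (L x) := by
    intro x
    unfold L01
    rw [sumH_L]
  have h01R : ∀ x, L01 L (mR 2 1 x) = 1 := by
    intro x
    unfold L01
    rw [sumH_R]
    simp [triv]
  let χ : Fg 3 →* Multiplicative (ZMod N) := q.comp (L01 L)
  have hχ1 : vl χ (FreeGroup.of (1, false)) = m := by
    show vl q (L01 L (FreeGroup.of (1, false))) = m
    rw [← mL_1, h01, hm, map_zpow, FreeGroup.map.of]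
    exact hq m
  have hχ0 : χ (FreeGroup.of (0, false)) = 1 := by
    show q (L01 L (FreeGroup.of (0, false))) = 1
    rw [← mL_0, h01, hn, map_zpow, FreeGroup.map.of]
    have h := hq N
    rw [Int.cast_natCast, ZMod.natCast_self] at h
    exact h
  have hk : (L01 L).ker ≤ χ.ker := by
    intro x hx
    rw [MonoidHom.mem_ker] at hx
    show q (L01 L x) = 1
    rw [hx, map_one]
  refine ⟨χ, ?_, hχ1⟩
  have h := (sec01 D).2
  have h0 : (ind f 0).ker ≤ χ.ker := le_trans (by rw [h]; exact le_sup_left) hk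
  have h1 : (ind f 1).ker ≤ χ.ker := le_trans (by rw [h]; exact le_sup_right) hk
  have h2 : (ind f 2).ker ≤ χ.ker := by
    have hb : ∀ i : Fin 3, χ (FreeGroup.of (i, true)) = 1 := by
      intro i
      exact h1 (std_t 3 i)
    have hμ : χ (FreeGroup.of (2, false)) = 1 := by
      show q (L01 L (FreeGroup.of (2, false))) = 1
      rw [← mR_0, h01R, map_one]
    let r : FreeGroup (Fin 3) →* Multiplicative (ZMod N) :=
      FreeGroup.lift fun x => if x = 1 then χ (FreeGroup.of (1, false)) else 1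
    have r0 : r (FreeGroup.of 0) = 1 := by simp [r]
    have r1 : r (FreeGroup.of 1) = χ (FreeGroup.of (1, false)) := by simp [r]
    have r2 : r (FreeGroup.of 2) = 1 := by simp [r]
    have key : r.comp third = χ := by
      apply ext3
      · rw [MonoidHom.comp_apply, third_0f, r0, hχ0]
      · rw [MonoidHom.comp_apply, third_0t, r2, hb]
      · rw [MonoidHom.comp_apply, third_1f, r1]
      · rw [MonoidHom.comp_apply, third_1t, map_one, hb]
      · rw [MonoidHom.comp_apply, third_2f, r2, hμ]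
      · rw [MonoidHom.comp_apply, third_2t, r0, hb]
    intro x hx
    rw [ind_2, MonoidHom.mem_ker] at hx
    rw [MonoidHom.mem_ker, ← key, MonoidHom.comp_apply, hx, map_one]
  intro i
  fin_cases i
  · exact h0
  · exact h1
  · exact h2

end

theorem dec1 : ∀ c d d' : ZMod 5, (c = 1 ∨ c = 4) → 4 = 2 * d' → (d = d' ∨ d = -d') →
    c * d = 2 ∨ c * d = 3 := by decide

theorem dec2 : ∀ c d d' : ZMod 5, (c = 1 ∨ c = 4) → 4 = 4 * d' → (d = d' ∨ d = -d') →
    c * d = 1 ∨ c * d = 4 := by decide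

theorem dec3 : ∀ w : ZMod 5, (w = 2 ∨ w = 3) → (w = 1 ∨ w = 4) → False := by decide

/-- The main theorem. -/
theorem main5 : ∃ φ : Fin 3 → (FreeGroup (Fin 3 × Bool) →* FreeGroup (Fin 3)),
    IsTri φ 1 ∧ IsTri (sumMaps φ φ) 2 ∧ IsTri (sumMaps φ (fun i => φ (i + 1))) 2 ∧
    ¬ WeakIsoMaps (sumMaps φ φ) (sumMaps φ (fun i => φ (i + 1))) := by
  obtain ⟨f, L, D, hn, hm⟩ := real_five_two
  have hT := isTri_ind D
  have hR : IsTri (fun i => ind f (i + 1)) 1 := isTri_relabel (ind f) hT (Equiv.addRight 1)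
  refine ⟨ind f, hT, isTri_sum _ _ hT hT, isTri_sum _ _ hT hR, ?_⟩
  intro W
  obtain ⟨χ, hχ, hχv⟩ := exists_chi D 5 hn hm
  have h01 := sec1_01 D hm
  have h12 := sec1_12 (f := f)
  have h20 := sec1_20 D hm
  -- sectors of the rotated summand
  have r01 : Sec1 (fun i => ind f (i + 1)) (FreeGroup.of (1, false)) 0 1 1 := h12
  have r12 : Sec1 (fun i => ind f (i + 1)) (FreeGroup.of (1, false)) 1 2 2 := h20
  have r20 : Sec1 (fun i => ind f (i + 1)) (FreeGroup.of (1, false)) 2 0 2 := h01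
  let A : Fg (3 + 3) := mL 3 3 (FreeGroup.of (1, false))
  let B : Fg (3 + 3) := mR 3 3 (FreeGroup.of (1, false))
  have hS1 := hT.1
  have hS2 := hR.1
  let c : Fin 3 → Fin 3 → ZMod 5 := fun i j =>
    if (i = 1 ∧ j = 2) ∨ (i = 2 ∧ j = 1) then 1 else 4
  let c' : Fin 3 → Fin 3 → ZMod 5 := fun i j =>
    if (i = 2 ∧ j = 0) ∨ (i = 0 ∧ j = 2) then 4 else 2
  have hc : ∀ i j, i ≠ j → Sec (sumMaps (ind f) (ind f)) A B i j (c i j) := by
    have e01 : Sec (sumMaps (ind f) (ind f)) A B 0 1 (4 : ZMod 5) :=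
      Sec1.sum hS1 hS1 h01 h01 (by decide)
    have e12 : Sec (sumMaps (ind f) (ind f)) A B 1 2 (1 : ZMod 5) :=
      Sec1.sum hS1 hS1 h12 h12 (by decide)
    have e20 : Sec (sumMaps (ind f) (ind f)) A B 2 0 (4 : ZMod 5) :=
      Sec1.sum hS1 hS1 h20 h20 (by decide)
    intro i j hij
    fin_cases i <;> fin_cases j
    · exact absurd rfl hij
    · exact e01
    · exact e20.symm
    · exact e01.symm
    · exact absurd rfl hij
    · exact e12
    · exact e20
    · exact e12.symm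
    · exact absurd rfl hij
  have hc' : ∀ i j, i ≠ j →
      Sec (sumMaps (ind f) (fun i => ind f (i + 1))) A B i j (c' i j) := by
    have e01 : Sec (sumMaps (ind f) (fun i => ind f (i + 1))) A B 0 1 (2 : ZMod 5) :=
      Sec1.sum hS1 hS2 h01 r01 (by decide)
    have e12 : Sec (sumMaps (ind f) (fun i => ind f (i + 1))) A B 1 2 (2 : ZMod 5) :=
      Sec1.sum hS1 hS2 h12 r12 (by decide)
    have e20 : Sec (sumMaps (ind f) (fun i => ind f (i + 1))) A B 2 0 (4 : ZMod 5) :=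
      Sec1.sum hS1 hS2 h20 r20 (by decide)
    intro i j hij
    fin_cases i <;> fin_cases j
    · exact absurd rfl hij
    · exact e01
    · exact e20.symm
    · exact e01.symm
    · exact absurd rfl hij
    · exact e12
    · exact e20
    · exact e12.symm
    · exact absurd rfl hij
  let s₁ : Fg (3 + 3) →* Multiplicative (ZMod 5) := cop χ 1
  let s₂ : Fg (3 + 3) →* Multiplicative (ZMod 5) := cop 1 χ
  have hone : ∀ (ψ : Fg 3 →* FreeGroup (Fin 3)),
      ψ.ker ≤ (1 : Fg 3 →* Multiplicative (ZMod 5)).ker := by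
    intro ψ x _
    rfl
  have hs₁ : ∀ i, (sumMaps (ind f) (fun i => ind f (i + 1)) i).ker ≤ s₁.ker := by
    intro i
    rw [sumMaps_eq]
    exact cop_ker _ _ (hS1 i) (hS2 i) _ _ (hχ i) (hone _)
  have hs₂ : ∀ i, (sumMaps (ind f) (fun i => ind f (i + 1)) i).ker ≤ s₂.ker := by
    intro i
    rw [sumMaps_eq]
    exact cop_ker _ _ (hS1 i) (hS2 i) _ _ (hone _) (hχ (i + 1))
  have hwd : wd s₁ s₂ A B = 4 := by
    have e1 : vl s₁ A = 2 := by
      show ((cop χ 1) (mL 3 3 (FreeGroup.of (1, false)))).toAdd = 2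
      rw [cop_L]
      exact hχv
    have e2 : vl s₂ A = 0 := by
      show ((cop 1 χ) (mL 3 3 (FreeGroup.of (1, false)))).toAdd = 0
      rw [cop_L]
      rfl
    have e3 : vl s₂ B = 2 := by
      show ((cop 1 χ) (mR 3 3 (FreeGroup.of (1, false)))).toAdd = 2
      rw [cop_R]
      exact hχv
    unfold wd
    rw [e1, e2, e3, zero_mul]
    decide
  obtain ⟨σ, w, hw⟩ := wedge_inv (n := 5) _ _ (isTri_sum _ _ hT hT).2.1
    (isTri_sum _ _ hT hR).2.1 W s₁ s₂ hs₁ hs₂ A B A B c c' hc hc'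
  have hcv : ∀ i j, c i j = 1 ∨ c i j = 4 := by
    intro i j
    simp only [c]
    split_ifs
    · left; rfl
    · right; rfl
  obtain ⟨d, d', h1, h2, h3⟩ := hw (σ.symm 0) (σ.symm 1)
    (fun h => absurd (σ.symm.injective h) (by decide))
  rw [Equiv.apply_symm_apply, Equiv.apply_symm_apply, hwd] at h2
  obtain ⟨k, k', h4, h5, h6⟩ := hw (σ.symm 2) (σ.symm 0)
    (fun h => absurd (σ.symm.injective h) (by decide))
  rw [Equiv.apply_symm_apply, Equiv.apply_symm_apply, hwd] at h5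
  have g1 : w = 2 ∨ w = 3 := by
    rw [h1]
    exact dec1 _ _ _ (hcv _ _) h2 h3
  have g2 : w = 1 ∨ w = 4 := by
    rw [h4]
    exact dec2 _ _ _ (hcv _ _) h5 h6
  exact dec3 w g1 g2

end Pool.Agent.Y524G
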