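import Pool.Agent.Y524G.Inv

/-! Induced trisections: final statements. -/

namespace Pool.Agent.Y524G

open Pool.Agent.Y524F

theorem real_all_aux (N : ℕ) : ∀ n m : ℤ, n.natAbs + m.natAbs ≤ N → IsCoprime n m → Real n m := by
  induction N with
  | zero =>
    intro n m h hc
    have hn : n = 0 := by omega
    have hm : m = 0 := by omega
    subst hn hm
    exact absurd hc (by simp [isCoprime_zero_left])
  | succ N ih =>
    intro n m h hc
    by_cases hn : n = 0
    · subst hn
      rw [isCoprime_zero_left] at hc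
      rcases Int.isUnit_iff.1 hc with rfl | rfl
      · exact (Real.base.step2'.step1' : Real (1 - (0 + 1)) (0 + 1))
      · exact (Real.base.step2.step1 : Real (1 + (0 - 1)) (0 - 1))
    by_cases hm : m = 0
    · subst hm
      rw [isCoprime_zero_right] at hc
      rcases Int.isUnit_iff.1 hc with rfl | rfl
      · exact Real.base
      · exact (Real.base.step2.step1.step1.step2 :
          Real (1 + (0 - 1) + (0 - 1)) (0 - 1 - (1 + (0 - 1) + (0 - 1))))
    by_cases hle : m.natAbs ≤ n.natAbs
    · by_cases hs : (n - m).natAbs < n.natAbs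
      · have h1 : Real (n - m) m := by
          apply ih _ _ (by omega)
          have : IsCoprime (n + m * (-1)) m := hc.add_mul_left_left (-1)
          rwa [show n - m = n + m * (-1) by ring]
        have h2 := h1.step1
        rwa [show n - m + m = n by ring] at h2
      · have h1 : Real (n + m) m := by
          apply ih _ _ (by omega)
          have : IsCoprime (n + m * 1) m := hc.add_mul_left_left 1
          rwa [mul_one] at this
        have h2 := h1.step1'
        rwa [show n + m - m = n by ring] at h2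
    · by_cases hs : (m - n).natAbs < m.natAbs
      · have h1 : Real n (m - n) := by
          apply ih _ _ (by omega)
          have : IsCoprime n (m + n * (-1)) := hc.add_mul_left_right (-1)
          rwa [show m - n = m + n * (-1) by ring]
        have h2 := h1.step2'
        rwa [show m - n + n = m by ring] at h2
      · have h1 : Real n (m + n) := by
          apply ih _ _ (by omega)
          have : IsCoprime n (m + n * 1) := hc.add_mul_left_right 1
          rwa [mul_one] at this
        have h2 := h1.step2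
        rwa [show m + n - n = m by ring] at h2

/-- All coprime classes are realized. -/
theorem real_all (n m : ℤ) (h : IsCoprime n m) : Real n m := real_all_aux _ n m le_rfl h

theorem betaMap_eq (g : ℕ) : betaMap g = std g := rfl

theorem gammaMap_eq : gammaMap = third := by
  apply ext3
  · rw [third_0f]; simp [gammaMap]
  · rw [third_0t]; simp [gammaMap]
  · rw [third_1f]; simp [gammaMap]
  · rw [third_1t]; simp [gammaMap]
  · rw [third_2f]; simp [gammaMap]
  · rw [third_2t]; simp [gammaMap]

theorem alphaMap_L (f : Fg 2 →* FreeGroup (Fin 2)) (j : Fin 2) (b : Bool) :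
    alphaMap f (FreeGroup.of (Fin.castSucc j, b)) =
      FreeGroup.map Fin.castSucc (f (FreeGroup.of (j, b))) := by
  simp only [alphaMap, FreeGroup.lift_apply_of, Fin.lastCases_castSucc]

theorem alphaMap_R (f : Fg 2 →* FreeGroup (Fin 2)) (b : Bool) :
    alphaMap f (FreeGroup.of (Fin.last 2, b)) = if b then FreeGroup.of 2 else 1 := by
  simp only [alphaMap, FreeGroup.lift_apply_of, Fin.lastCases_last]

theorem alphaMap_eq (f : Fg 2 →* FreeGroup (Fin 2)) : alphaMap f = sumH f oneA := by
  apply FreeGroup.ext_hom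
  rintro ⟨a, b⟩
  refine Fin.addCases (m := 2) (n := 1) (fun j => ?_) (fun j => ?_) a
  · have := sumH_L f oneA (FreeGroup.of (j, b))
    rw [mL_of] at this
    exact (alphaMap_L f j b).trans this.symm
  · have := sumH_R f oneA (FreeGroup.of (j, b))
    rw [mR_of] at this
    rw [Subsingleton.elim j 0] at this ⊢
    refine (alphaMap_R f b).trans (Eq.trans ?_ this.symm)
    cases b
    · simp [oneA]
    · simp [oneA]

theorem induced_eq (f : Fg 2 →* FreeGroup (Fin 2)) : induced f = ind f := by
  unfold induced ind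
  rw [alphaMap_eq, betaMap_eq, gammaMap_eq]

theorem splitting_iff (f : Fg 2 →* FreeGroup (Fin 2)) (L : Fg 2 →* FreeGroup (Fin 1)) :
    Splitting f L ↔ Datum f L :=
  ⟨fun h => ⟨h.1, h.2.1, h.2.2.1, h.2.2.2⟩, fun h => ⟨h.surj, h.closed, h.surjL, h.ker⟩⟩

theorem reframe_0f (j : ℤ) : reframe j a0 = a0 * b0 ^ j := by simp [reframe]
theorem reframe_0t (j : ℤ) : reframe j b0 = b0 := by simp [reframe]
theorem reframe_1f (j : ℤ) : reframe j a1 = a1 := by simp [reframe]
theorem reframe_1t (j : ℤ) : reframe j b1 = b1 := by simp [reframe]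

theorem reframe_inv (j : ℤ) (x : Fg 2) : reframe j (reframe (-j) x) = x := by
  have : (reframe j).comp (reframe (-j)) = MonoidHom.id _ := by
    apply ext2 <;> rw [MonoidHom.comp_apply, MonoidHom.id_apply]
    · rw [reframe_0f, map_mul, map_zpow, reframe_0f, reframe_0t]; group
    · rw [reframe_0t, reframe_0t]
    · rw [reframe_1f, reframe_1f]
    · rw [reframe_1t, reframe_1t]
  exact DFunLike.congr_fun this x

theorem Datum.reframe {f : Fg 2 →* FreeGroup (Fin 2)} {L : Fg 2 →* FreeGroup (Fin 1)}
    (D : Datum f L) (j : ℤ) : Datum (f.comp (reframe j)) (L.comp (Y524G.reframe j)) := by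
  have h2 : ∀ x, Y524G.reframe (-j) (Y524G.reframe j x) = x := by
    intro x
    have := reframe_inv (-j) x
    rwa [neg_neg] at this
  refine D.comp _ (Y524G.reframe (-j)) (reframe_inv j) h2 ?_ ?_ ?_
  · rw [bd_two]
    simp only [map_mul, map_inv]
    rw [reframe_0f, reframe_0t, reframe_1f, reframe_1t]
    group
  · intro i
    fin_cases i
    · exact (congrArg _ (reframe_0t j)).trans (std_t 2 0)
    · exact (congrArg _ (reframe_1t j)).trans (std_t 2 1)
  · intro i
    fin_cases i
    · exact (congrArg _ (reframe_0t (-j))).trans (std_t 2 0)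
    · exact (congrArg _ (reframe_1t (-j))).trans (std_t 2 1)

theorem reframe_values {f : Fg 2 →* FreeGroup (Fin 2)} {L : Fg 2 →* FreeGroup (Fin 1)}
    (D : Datum f L) (j : ℤ) : (L.comp (reframe j)) a0 = L a0 ∧ (L.comp (reframe j)) a1 = L a1 := by
  constructor
  · have h0 := D.b 0
    rw [MonoidHom.comp_apply, reframe_0f, map_mul, map_zpow]
    have h0' : L b0 = 1 := h0
    rw [h0', one_zpow, mul_one]
  · rw [MonoidHom.comp_apply, reframe_1f]

/-- The family. -/
theorem main_family (n : ℕ) :
    ∃ (f : ℤ → (FreeGroup (Fin 2 × Bool) →* FreeGroup (Fin 2)))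
      (L : ℤ → (FreeGroup (Fin 2 × Bool) →* FreeGroup (Fin 1))),
      (∀ m, IsCoprime (n : ℤ) m → Splitting (f m) (L m) ∧
        L m (FreeGroup.of (0, false)) = FreeGroup.of 0 ^ n ∧
        ∀ i, IsTri (induced ((f m).comp (reframe i))) 1) ∧
      ∀ m m', IsCoprime (n : ℤ) m → IsCoprime (n : ℤ) m' → ¬ (n : ℤ) ∣ m - m' →
        ¬ (n : ℤ) ∣ m + m' → ∀ i j,
        ¬ WeakIsoMaps (induced ((f m).comp (reframe i))) (induced ((f m').comp (reframe j))) := by
  have hR : ∀ m : ℤ, ∃ (f : Fg 2 →* FreeGroup (Fin 2)) (L : Fg 2 →* FreeGroup (Fin 1)),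
      IsCoprime (n : ℤ) m → Datum f L ∧ L a0 = FreeGroup.of 0 ^ (n : ℤ) ∧
        L a1 = FreeGroup.of 0 ^ m := by
    intro m
    by_cases h : IsCoprime (n : ℤ) m
    · obtain ⟨f, L, h1⟩ := real_all _ _ h
      exact ⟨f, L, fun _ => h1⟩
    · exact ⟨1, 1, fun h' => absurd h' h⟩
  choose f L hfL using hR
  refine ⟨f, L, ?_, ?_⟩
  · intro m hm
    obtain ⟨D, hn, hmm⟩ := hfL m hm
    refine ⟨(splitting_iff _ _).2 D, ?_, ?_⟩
    · rw [← zpow_natCast]
      exact hn
    · intro i
      rw [induced_eq]
      exact isTri_ind (D.reframe i)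
  · intro m m' hm hm' h1 h2 i j W
    obtain ⟨D, hn, hmm⟩ := hfL m hm
    obtain ⟨D', hn', hmm'⟩ := hfL m' hm'
    rw [induced_eq, induced_eq] at W
    have v := reframe_values D i
    have v' := reframe_values D' j
    have key := inv_m (D.reframe i) (D'.reframe j) (v.2.trans hmm) (v'.1.trans hn')
      (v'.2.trans hmm') W
    rcases key with h | h
    · apply h1
      rw [← ZMod.intCast_zmod_eq_zero_iff_dvd] 
      push_cast
      rw [h, sub_self]
    · apply h2
      rw [← ZMod.intCast_zmod_eq_zero_iff_dvd]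
      push_cast
      rw [h, neg_add_cancel]

/-- The counterexample and the family. -/
theorem main_both :
    (∃ (f f' : FreeGroup (Fin 2 × Bool) →* FreeGroup (Fin 2))
      (L L' : FreeGroup (Fin 2 × Bool) →* FreeGroup (Fin 1)),
      Splitting f L ∧ Splitting f' L' ∧
      L (FreeGroup.of (0, false)) = FreeGroup.of 0 ^ 5 ∧
      L' (FreeGroup.of (0, false)) = FreeGroup.of 0 ^ 5 ∧
      ∀ i j : ℤ, IsTri (induced (f.comp (reframe i))) 1 ∧
        IsTri (induced (f'.comp (reframe j))) 1 ∧
        ¬ WeakIsoMaps (induced (f.comp (reframe i))) (induced (f'.comp (reframe j)))) ∧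
    ∀ n : ℕ, ∃ (f : ℤ → (FreeGroup (Fin 2 × Bool) →* FreeGroup (Fin 2)))
      (L : ℤ → (FreeGroup (Fin 2 × Bool) →* FreeGroup (Fin 1))),
      (∀ m, IsCoprime (n : ℤ) m → Splitting (f m) (L m) ∧
        L m (FreeGroup.of (0, false)) = FreeGroup.of 0 ^ n ∧
        ∀ i, IsTri (induced ((f m).comp (reframe i))) 1) ∧
      ∀ m m', IsCoprime (n : ℤ) m → IsCoprime (n : ℤ) m' → ¬ (n : ℤ) ∣ m - m' →
        ¬ (n : ℤ) ∣ m + m' → ∀ i j,
        ¬ WeakIsoMaps (induced ((f m).comp (reframe i))) (induced ((f m').comp (reframe j))) := by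
  refine ⟨?_, main_family⟩
  obtain ⟨f, L, h1, h2⟩ := main_family 5
  have c1 : IsCoprime ((5 : ℕ) : ℤ) 1 := isCoprime_one_right
  have c2 : IsCoprime ((5 : ℕ) : ℤ) 2 := ⟨1, -2, by norm_num⟩
  obtain ⟨s1, e1, t1⟩ := h1 1 c1
  obtain ⟨s2, e2, t2⟩ := h1 2 c2
  exact ⟨f 1, f 2, L 1, L 2, s1, s2, e1, e2, fun i j => ⟨t1 i, t2 j,
    h2 1 2 c1 c2 (by decide) (by decide) i j⟩⟩

end Pool.Agent.Y524G
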