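import Pool.Agent.Y524G.Defs

/-! Connected sums of group trisections: the push-outs. -/

namespace Pool.Agent.Y524G

open Pool.Agent.Y524F

/-- surface group of genus `g` with one boundary component -/
abbrev Fg (g : ℕ) := FreeGroup (Fin g × Bool)

/-- first inclusion -/
def mL (g h : ℕ) : Fg g →* Fg (g + h) := FreeGroup.map (fun p => (Fin.castAdd h p.1, p.2))

/-- second inclusion -/
def mR (g h : ℕ) : Fg h →* Fg (g + h) := FreeGroup.map (fun p => (Fin.natAdd g p.1, p.2))

@[simp] theorem mL_of (g h : ℕ) (p : Fin g × Bool) :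
    mL g h (FreeGroup.of p) = FreeGroup.of (Fin.castAdd h p.1, p.2) := by
  simp [mL]

@[simp] theorem mR_of (g h : ℕ) (p : Fin h × Bool) :
    mR g h (FreeGroup.of p) = FreeGroup.of (Fin.natAdd g p.1, p.2) := by
  simp [mR]

theorem bd_add (g h : ℕ) : bd (g + h) = mL g h (bd g) * mR g h (bd h) := by
  unfold bd
  rw [List.ofFn_add, List.prod_append, map_list_prod, List.map_ofFn, map_list_prod, List.map_ofFn]
  congr 1

/-- hom on the surface group of the sum from homs on the parts -/
def cop {G : Type*} [Group G] {g h : ℕ} (f : Fg g →* G) (f' : Fg h →* G) : Fg (g + h) →* G :=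
  FreeGroup.lift fun x => Fin.addCases (fun j => f (FreeGroup.of (j, x.2)))
    (fun j => f' (FreeGroup.of (j, x.2))) x.1

theorem cop_L {G : Type*} [Group G] {g h : ℕ} (f : Fg g →* G) (f' : Fg h →* G) (x : Fg g) :
    cop f f' (mL g h x) = f x := by
  have : (cop f f').comp (mL g h) = f := by
    apply FreeGroup.ext_hom
    rintro ⟨j, b⟩
    simp [cop]
  exact DFunLike.congr_fun this x

theorem cop_R {G : Type*} [Group G] {g h : ℕ} (f : Fg g →* G) (f' : Fg h →* G) (x : Fg h) :
    cop f f' (mR g h x) = f' x := by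
  have : (cop f f').comp (mR g h) = f' := by
    apply FreeGroup.ext_hom
    rintro ⟨j, b⟩
    simp [cop]
  exact DFunLike.congr_fun this x

theorem ext_LR {G : Type*} [Group G] {g h : ℕ} {f f' : Fg (g + h) →* G}
    (hL : ∀ x, f (mL g h x) = f' (mL g h x)) (hR : ∀ x, f (mR g h x) = f' (mR g h x)) :
    f = f' := by
  apply FreeGroup.ext_hom
  rintro ⟨a, b⟩
  refine Fin.addCases (fun j => ?_) (fun j => ?_) a
  · simpa using hL (FreeGroup.of (j, b))
  · simpa using hR (FreeGroup.of (j, b))

/-- hom on the free group from homs on the parts -/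
def coq {G : Type*} [Group G] {a b : ℕ} (f : FreeGroup (Fin a) →* G) (f' : FreeGroup (Fin b) →* G) :
    FreeGroup (Fin (a + b)) →* G :=
  FreeGroup.lift fun x => Fin.addCases (fun j => f (FreeGroup.of j))
    (fun j => f' (FreeGroup.of j)) x

theorem coq_L {G : Type*} [Group G] {a b : ℕ} (f : FreeGroup (Fin a) →* G)
    (f' : FreeGroup (Fin b) →* G) (x : FreeGroup (Fin a)) :
    coq f f' (FreeGroup.map (Fin.castAdd b) x) = f x := by
  have : (coq f f').comp (FreeGroup.map (Fin.castAdd b)) = f := by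
    apply FreeGroup.ext_hom
    intro j
    simp [coq]
  exact DFunLike.congr_fun this x

theorem coq_R {G : Type*} [Group G] {a b : ℕ} (f : FreeGroup (Fin a) →* G)
    (f' : FreeGroup (Fin b) →* G) (x : FreeGroup (Fin b)) :
    coq f f' (FreeGroup.map (Fin.natAdd a) x) = f' x := by
  have : (coq f f').comp (FreeGroup.map (Fin.natAdd a)) = f' := by
    apply FreeGroup.ext_hom
    intro j
    simp [coq]
  exact DFunLike.congr_fun this x

/-- sum of two maps -/
def sumH {g h a b : ℕ} (f : Fg g →* FreeGroup (Fin a)) (f' : Fg h →* FreeGroup (Fin b)) :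
    Fg (g + h) →* FreeGroup (Fin (a + b)) :=
  cop ((FreeGroup.map (Fin.castAdd b)).comp f) ((FreeGroup.map (Fin.natAdd a)).comp f')

theorem sumMaps_eq {g h : ℕ} (φ : Fin 3 → (Fg g →* FreeGroup (Fin g)))
    (ψ : Fin 3 → (Fg h →* FreeGroup (Fin h))) (i : Fin 3) :
    sumMaps φ ψ i = sumH (φ i) (ψ i) := rfl

section

variable {g h a b : ℕ} (f : Fg g →* FreeGroup (Fin a)) (f' : Fg h →* FreeGroup (Fin b))

theorem sumH_L (x : Fg g) : sumH f f' (mL g h x) = FreeGroup.map (Fin.castAdd b) (f x) :=
  cop_L _ _ x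

theorem sumH_R (x : Fg h) : sumH f f' (mR g h x) = FreeGroup.map (Fin.natAdd a) (f' x) :=
  cop_R _ _ x

end

theorem hom_surj_of_gen {G : Type*} [Group G] {α : Type*} (f : G →* FreeGroup α)
    (h : ∀ a, ∃ x, f x = FreeGroup.of a) : Function.Surjective f := by
  rw [← MonoidHom.range_eq_top, eq_top_iff, ← FreeGroup.closure_range_of, Subgroup.closure_le]
  rintro _ ⟨a, rfl⟩
  obtain ⟨x, hx⟩ := h a
  exact ⟨x, hx⟩

/-- factor a homomorphism through a surjective one -/
theorem exists_factor {G H K : Type*} [Group G] [Group H] [Group K] (f : G →* H) (k : G →* K)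
    (hf : Function.Surjective f) (h : f.ker ≤ k.ker) : ∃ l : H →* K, ∀ x, l (f x) = k x := by
  refine ⟨f.liftOfRightInverse (Function.surjInv hf) (Function.rightInverse_surjInv hf)
    ⟨k, h⟩, fun x => ?_⟩
  exact MonoidHom.liftOfRightInverse_comp_apply f _ (Function.rightInverse_surjInv hf) ⟨k, h⟩ x

theorem sumH_surj {g h a b : ℕ} (f : Fg g →* FreeGroup (Fin a)) (f' : Fg h →* FreeGroup (Fin b))
    (hf : Function.Surjective f) (hf' : Function.Surjective f') :
    Function.Surjective (sumH f f') := by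
  apply hom_surj_of_gen
  intro c
  refine Fin.addCases (fun j => ?_) (fun j => ?_) c
  · obtain ⟨x, hx⟩ := hf (FreeGroup.of j)
    exact ⟨mL g h x, by rw [sumH_L, hx, FreeGroup.map.of]⟩
  · obtain ⟨x, hx⟩ := hf' (FreeGroup.of j)
    exact ⟨mR g h x, by rw [sumH_R, hx, FreeGroup.map.of]⟩

/-- Vanishing on the kernel of a sum. -/
theorem cop_ker {G : Type*} [Group G] {g h a b : ℕ} (f : Fg g →* FreeGroup (Fin a))
    (f' : Fg h →* FreeGroup (Fin b))
    (hf : Function.Surjective f) (hf' : Function.Surjective f') (u : Fg g →* G) (u' : Fg h →* G)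
    (hu : f.ker ≤ u.ker) (hu' : f'.ker ≤ u'.ker) : (sumH f f').ker ≤ (cop u u').ker := by
  obtain ⟨l, hl⟩ := exists_factor f u hf hu
  obtain ⟨l', hl'⟩ := exists_factor f' u' hf' hu'
  have key : (coq l l').comp (sumH f f') = cop u u' := by
    apply ext_LR
    · intro x
      rw [MonoidHom.comp_apply, sumH_L, coq_L, hl, cop_L]
    · intro x
      rw [MonoidHom.comp_apply, sumH_R, coq_R, hl', cop_R]
  intro x hx
  rw [MonoidHom.mem_ker] at hx ⊢
  rw [← key, MonoidHom.comp_apply, hx, map_one]

/-- The push-out of a sum is the free product of the push-outs. -/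
theorem sumH_ker {g h a b k k' : ℕ} (f₁ f₂ : Fg g →* FreeGroup (Fin a))
    (f₁' f₂' : Fg h →* FreeGroup (Fin b)) (L : Fg g →* FreeGroup (Fin k))
    (L' : Fg h →* FreeGroup (Fin k'))
    (h₁ : Function.Surjective f₁) (h₂ : Function.Surjective f₂)
    (h₁' : Function.Surjective f₁') (h₂' : Function.Surjective f₂')
    (hL : Function.Surjective L) (hL' : Function.Surjective L')
    (hk : L.ker = f₁.ker ⊔ f₂.ker) (hk' : L'.ker = f₁'.ker ⊔ f₂'.ker) :
    (sumH L L').ker = (sumH f₁ f₁').ker ⊔ (sumH f₂ f₂').ker := by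
  apply le_antisymm
  · set M : Subgroup (Fg (g + h)) := (sumH f₁ f₁').ker ⊔ (sumH f₂ f₂').ker with hM
    have hkill : ∀ x, (sumH f₁ f₁' x = 1 ∨ sumH f₂ f₂' x = 1) → QuotientGroup.mk' M x = 1 := by
      intro x hx
      rw [← MonoidHom.mem_ker, QuotientGroup.ker_mk']
      rcases hx with hx | hx
      · exact Subgroup.mem_sup_left hx
      · exact Subgroup.mem_sup_right hx
    obtain ⟨t, ht⟩ := exists_factor L ((QuotientGroup.mk' M).comp (mL g h)) hL (by
      rw [hk, sup_le_iff]
      constructor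
      · intro x hx
        rw [MonoidHom.mem_ker] at hx
        rw [MonoidHom.mem_ker, MonoidHom.comp_apply]
        apply hkill
        left
        rw [sumH_L, hx, map_one]
      · intro x hx
        rw [MonoidHom.mem_ker] at hx
        rw [MonoidHom.mem_ker, MonoidHom.comp_apply]
        apply hkill
        right
        rw [sumH_L, hx, map_one])
    obtain ⟨t', ht'⟩ := exists_factor L' ((QuotientGroup.mk' M).comp (mR g h)) hL' (by
      rw [hk', sup_le_iff]
      constructor
      · intro x hx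
        rw [MonoidHom.mem_ker] at hx
        rw [MonoidHom.mem_ker, MonoidHom.comp_apply]
        apply hkill
        left
        rw [sumH_R, hx, map_one]
      · intro x hx
        rw [MonoidHom.mem_ker] at hx
        rw [MonoidHom.mem_ker, MonoidHom.comp_apply]
        apply hkill
        right
        rw [sumH_R, hx, map_one])
    have key : (coq t t').comp (sumH L L') = QuotientGroup.mk' M := by
      apply ext_LR
      · intro x
        rw [MonoidHom.comp_apply, sumH_L, coq_L, ht, MonoidHom.comp_apply]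
      · intro x
        rw [MonoidHom.comp_apply, sumH_R, coq_R, ht', MonoidHom.comp_apply]
    intro x hx
    rw [MonoidHom.mem_ker] at hx
    have : QuotientGroup.mk' M x = 1 := by
      rw [← key, MonoidHom.comp_apply, hx, map_one]
    rwa [← MonoidHom.mem_ker, QuotientGroup.ker_mk'] at this
  · have hc : ∀ (x : Fg g), (FreeGroup.map (Fin.castAdd k')) (L x) =
        ((FreeGroup.map (Fin.castAdd k')).comp L) x := fun x => rfl
    rw [sup_le_iff]
    constructor
    · refine cop_ker f₁ f₁' h₁ h₁' _ _ ?_ ?_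
      · intro x hx
        have : x ∈ L.ker := by rw [hk]; exact Subgroup.mem_sup_left hx
        rw [MonoidHom.mem_ker] at this
        rw [MonoidHom.mem_ker, MonoidHom.comp_apply, this, map_one]
      · intro x hx
        have : x ∈ L'.ker := by rw [hk']; exact Subgroup.mem_sup_left hx
        rw [MonoidHom.mem_ker] at this
        rw [MonoidHom.mem_ker, MonoidHom.comp_apply, this, map_one]
    · refine cop_ker f₂ f₂' h₂ h₂' _ _ ?_ ?_
      · intro x hx
        have : x ∈ L.ker := by rw [hk]; exact Subgroup.mem_sup_right hx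
        rw [MonoidHom.mem_ker] at this
        rw [MonoidHom.mem_ker, MonoidHom.comp_apply, this, map_one]
      · intro x hx
        have : x ∈ L'.ker := by rw [hk']; exact Subgroup.mem_sup_right hx
        rw [MonoidHom.mem_ker] at this
        rw [MonoidHom.mem_ker, MonoidHom.comp_apply, this, map_one]

/-- The sum of two group trisections is a group trisection. -/
theorem isTri_sum {g h k k' : ℕ} (φ : Fin 3 → (Fg g →* FreeGroup (Fin g)))
    (ψ : Fin 3 → (Fg h →* FreeGroup (Fin h))) (hφ : IsTri φ k) (hψ : IsTri ψ k') :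
    IsTri (sumMaps φ ψ) (k + k') := by
  refine ⟨fun i => ?_, fun i => ?_, fun i j hij => ?_⟩
  · rw [sumMaps_eq]
    exact sumH_surj _ _ (hφ.1 i) (hψ.1 i)
  · rw [sumMaps_eq, bd_add, map_mul, sumH_L, sumH_R, hφ.2.1 i, hψ.2.1 i, map_one, map_one, mul_one]
  · obtain ⟨L, hL, hLk⟩ := hφ.2.2 i j hij
    obtain ⟨L', hL', hLk'⟩ := hψ.2.2 i j hij
    refine ⟨sumH L L', sumH_surj _ _ hL hL', ?_⟩
    rw [sumMaps_eq, sumMaps_eq]
    exact sumH_ker _ _ _ _ _ _ (hφ.1 i) (hφ.1 j) (hψ.1 i) (hψ.1 j) hL hL' hLk hLk'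

/-- Relabelling. -/
theorem isTri_relabel {g k : ℕ} (φ : Fin 3 → (Fg g →* FreeGroup (Fin g))) (hφ : IsTri φ k)
    (σ : Equiv.Perm (Fin 3)) : IsTri (fun i => φ (σ i)) k :=
  ⟨fun i => hφ.1 _, fun i => hφ.2.1 _, fun i j hij => hφ.2.2 _ _ (fun h => hij (σ.injective h))⟩

end Pool.Agent.Y524G
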